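import Mathlib

set_option autoImplicit false
set_option linter.all false

/-!
# Forcing strongly rigid chains

A sentence of the forcing language of a preordered set `P` of conditions is represented by the
set of the conditions which force it. Negation, conjunction and universal quantification are the
primitive connectives, with their usual forcing clauses; the other connectives are defined from
them classically. A name for a subset of a ground model set `X` is a map sending `x : X` to the
set of the conditions attached to `x`.
-/

namespace Pool.Agent.Helper330.SRC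

open Set Cardinal

universe u v w

section

variable {P : Type u} [Preorder P]

/-- `p` forces `not φ` iff no `q ≤ p` forces `φ`. -/
def fnot (φ : Set P) : Set P := {p | ∀ q ≤ p, q ∉ φ}

/-- `p` forces `φ and ψ` iff it forces both. -/
def fand (φ ψ : Set P) : Set P := {p | p ∈ φ ∧ p ∈ ψ}

/-- `p` forces `for all i, φ i` iff it forces every `φ i`. -/
def fall {ι : Sort v} (φ : ι → Set P) : Set P := {p | ∀ i, p ∈ φ i}

/-- `φ or ψ` is `not (not φ and not ψ)`. -/
def for' (φ ψ : Set P) : Set P := fnot (fand (fnot φ) (fnot ψ))

/-- `φ implies ψ` is `not (φ and not ψ)`. -/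
def fimp (φ ψ : Set P) : Set P := fnot (fand φ (fnot ψ))

/-- `there is i with φ i` is `not for all i, not φ i`. -/
def fex {ι : Sort v} (φ : ι → Set P) : Set P := fnot (fall fun i => fnot (φ i))

/-- An absolute statement about ground model objects. -/
def fground (h : Prop) : Set P := {_p | h}

/-- `p` forces that the generic filter meets the set `N` of conditions:
the set of `r` lying below some member of `N` is dense below `p`. -/
def meets (N : Set P) : Set P := {p | ∀ q ≤ p, ∃ r ≤ q, ∃ s ∈ N, r ≤ s}

/-- The relation named by `R` is a partial function from `X` to `Y`. -/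
def IsPartFun {X : Type v} {Y : Type w} (R : X → Y → Set P) : Set P :=
  fall fun x => fall fun y => fall fun y' =>
    fimp (fand (meets (R x y)) (meets (R x y'))) (fground (y = y'))

/-- The relation named by `R` is defined on all of `X`. -/
def IsTotal {X : Type v} {Y : Type w} (R : X → Y → Set P) : Set P :=
  fall fun x => fex fun y => meets (R x y)

/-- The relation named by `R` is onto `Y`. -/
def IsOnto {X : Type v} {Y : Type w} (R : X → Y → Set P) : Set P :=
  fall fun y => fex fun x => meets (R x y)

/-- The relation named by `L` is a (strict) linear order of `A`. -/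
def IsLinearOrder {A : Type v} (L : A → A → Set P) : Set P :=
  fand (fall fun x => fnot (meets (L x x)))
    (fand (fall fun x => fall fun y => fall fun z =>
        fimp (fand (meets (L x y)) (meets (L y z))) (meets (L x z)))
      (fall fun x => fall fun y => fall fun _ : x ≠ y => for' (meets (L x y)) (meets (L y x))))

/-- The relation named by `F` is a strictly increasing function from a subset of the chain named
by `L` to this chain. -/
def IsPartIncreasing {A : Type v} (L F : A → A → Set P) : Set P :=
  fand (IsPartFun F)
    (fall fun x => fall fun y => fall fun x' => fall fun y' =>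
      fimp (fand (fand (meets (F x y)) (meets (F x' y'))) (meets (L x x'))) (meets (L y y')))

/-- The set of the points moved by the partial function named by `F` has a smaller cardinality
than `A`: there is no function from a subset of the set of moved points onto `A`. -/
def MovesFew {A : Type v} (F : A → A → Set P) : Set P :=
  fnot (fex fun R : A → A → Set P => fand
    (fall fun x => fall fun y => fimp (meets (R x y))
      (fex fun z => fand (fground (z ≠ x)) (meets (F x z))))
    (fand (IsPartFun R) (IsOnto R)))

end

section

variable (P : Type u) [Preorder P]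

/-- The extension has a strongly rigid chain on the (ground model) set `A`: some linear order of
`A` is such that every strictly increasing function from a subset of `A` to `A` moves
fewer than `|A|` points. -/
def HasRigidChain (A : Type v) : Set P :=
  fex fun L : A → A → Set P => fand (IsLinearOrder L)
    (fall fun F : A → A → Set P => fimp (IsPartIncreasing L F) (MovesFew F))

/-- Every uncountable cardinal of the ground model is a cardinal of the extension: if `Y` is
uncountable and `X` has a smaller cardinality in the ground model, then the extension has no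
function from `X` onto `Y`. -/
def CardinalsPreserved : Set P :=
  fall fun X : Type v => fall fun Y : Type v => fall fun _ : (#X < #Y ∧ ℵ₀ < #Y) =>
    fnot (fex fun R : X → Y → Set P => fand (fand (IsPartFun R) (IsTotal R)) (IsOnto R))

end

/-! ### General facts -/

section

variable {P : Type u} [Preorder P]

theorem mem_fex {ι : Sort v} {φ : ι → Set P} {p : P} :
    p ∈ fex φ ↔ ∀ q ≤ p, ∃ r ≤ q, ∃ i, r ∈ φ i := by
  simp only [fex, fnot, fall, Set.mem_ofPred_eq, not_forall, not_not]
  constructor
  · intro h q hq
    obtain ⟨i, r, hr, h'⟩ := h q hq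
    exact ⟨r, hr, i, h'⟩
  · intro h q hq
    obtain ⟨r, hr, i, h'⟩ := h q hq
    exact ⟨i, r, hr, h'⟩

theorem mem_fimp {φ ψ : Set P} {p : P} :
    p ∈ fimp φ ψ ↔ ∀ q ≤ p, q ∈ φ → ∃ r ≤ q, r ∈ ψ := by
  simp only [fimp, fnot, fand, Set.mem_ofPred_eq, not_and, not_forall, not_not]
  constructor
  · intro h q hq h'
    obtain ⟨r, hr, h''⟩ := h q hq h'
    exact ⟨r, hr, h''⟩
  · intro h q hq h'
    obtain ⟨r, hr, h''⟩ := h q hq h'
    exact ⟨r, hr, h''⟩

theorem mem_for' {φ ψ : Set P} {p : P} :
    p ∈ for' φ ψ ↔ ∀ q ≤ p, ∃ r ≤ q, r ∈ φ ∨ r ∈ ψ := by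
  simp only [for', fnot, fand, Set.mem_ofPred_eq]
  constructor
  · intro h q hq
    by_contra hcon
    push Not at hcon
    exact h q hq ⟨fun r hr => (hcon r hr).1, fun r hr => (hcon r hr).2⟩
  · rintro h q hq ⟨h1, h2⟩
    obtain ⟨r, hr, h' | h'⟩ := h q hq
    · exact h1 r hr h'
    · exact h2 r hr h'

def Down (φ : Set P) : Prop := ∀ p ∈ φ, ∀ q ≤ p, q ∈ φ

theorem down_fnot (φ : Set P) : Down (fnot φ) :=
  fun _ hp _ hq r hr => hp r (hr.trans hq)

theorem down_fand {φ ψ : Set P} (h : Down φ) (h' : Down ψ) : Down (fand φ ψ) :=
  fun _ hp _ hq => ⟨h _ hp.1 _ hq, h' _ hp.2 _ hq⟩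

theorem down_fall {ι : Sort v} {φ : ι → Set P} (h : ∀ i, Down (φ i)) : Down (fall φ) :=
  fun _ hp _ hq i => h i _ (hp i) _ hq

theorem down_fex {ι : Sort v} (φ : ι → Set P) : Down (fex φ) := down_fnot _

theorem down_fimp (φ ψ : Set P) : Down (fimp φ ψ) := down_fnot _

theorem down_meets (N : Set P) : Down (meets N) :=
  fun _ hp _ hq r hr => hp r (hr.trans hq)

theorem down_isPartFun {X : Type v} {Y : Type w} (R : X → Y → Set P) : Down (IsPartFun R) :=
  down_fall fun _ => down_fall fun _ => down_fall fun _ => down_fimp _ _

theorem down_isPartIncreasing {A : Type v} (L F : A → A → Set P) :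
    Down (IsPartIncreasing L F) :=
  down_fand (down_isPartFun F)
    (down_fall fun _ => down_fall fun _ => down_fall fun _ => down_fall fun _ => down_fimp _ _)

theorem meets_of_mem {N : Set P} {p : P} (h : p ∈ N) : p ∈ meets N :=
  fun q hq => ⟨q, le_refl q, p, h, hq⟩

end

/-! ### The Cohen conditions -/

/-- Finitely many finite 0-1 sequences, indexed by elements of `I`. -/
structure Cond (I : Type u) where
  f : I → List Bool
  fin : {i | f i ≠ []}.Finite

variable {I : Type u}

instance : Preorder (Cond I) where
  le q p := ∀ i, p.f i <+: q.f i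
  le_refl p i := List.prefix_rfl
  le_trans _ _ _ h h' i := (h' i).trans (h i)

theorem Cond.le_def {q p : Cond I} : q ≤ p ↔ ∀ i, p.f i <+: q.f i := Iff.rfl

/-- the lexicographic order of the Cohen reals with index `i`, `j` -/
def lx (i j : I) : Set (Cond I) := {p | ∃ s, s ++ [false] <+: p.f i ∧ s ++ [true] <+: p.f j}

theorem down_lx (i j : I) : Down (lx i j) := by
  rintro p ⟨s, h1, h2⟩ q hq
  exact ⟨s, h1.trans (hq i), h2.trans (hq j)⟩

theorem meets_lx {i j : I} {p : Cond I} (h : p ∈ meets (lx i j)) : ∃ q ≤ p, q ∈ lx i j := by
  obtain ⟨r, hr, s, hs, hrs⟩ := h p (le_refl p)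
  exact ⟨r, hr, down_lx i j s hs r hrs⟩

end Pool.Agent.Helper330.SRC
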