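import Mathlib

set_option autoImplicit false

namespace Pool.Agent.Helper330.SRC

open Cardinal Set

universe u

/-- A chain `C` is strongly rigid if every strictly increasing map `f` from a subchain `C₁` of `C`
to `C` moves fewer than `|C|` points. -/
def StronglyRigid (C : Type u) [LinearOrder C] : Prop :=
  ∀ (C₁ : Set C) (f : C₁ → C), StrictMono f → #{x : C₁ // f x ≠ (x : C)} < #C

/-- The class `K`: infinite cardinals `κ` such that some strongly rigid chain has cardinality `κ`. -/
def K : Set Cardinal.{u} :=
  {κ | ℵ₀ ≤ κ ∧ ∃ (C : Type u) (_ : LinearOrder C), #C = κ ∧ StronglyRigid C}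

end Pool.Agent.Helper330.SRC
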