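import Mathlib

set_option autoImplicit false
open Cardinal Set Order

universe u v

namespace Pool.Agent.Helper330.SRC.Loc

/-- A chain `C` is strongly rigid if every order embedding `f` of a subchain `C₁` of `C` into `C`
moves fewer than `|C|` points. -/
def StronglyRigid (C : Type u) [LinearOrder C] : Prop :=
  ∀ (C₁ : Set C) (f : C₁ → C), StrictMono f → #{x : C₁ // f x ≠ (x : C)} < #C

/-- The class `K`: infinite cardinals `κ` such that some strongly rigid chain has cardinality `κ`. -/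
def K : Set Cardinal.{u} :=
  {κ | ℵ₀ ≤ κ ∧ ∃ (C : Type u) (_ : LinearOrder C), #C = κ ∧ StronglyRigid C}

/-- The partition relation `κ → (κ)²₂`: every graph on a set of size `κ` has a complete or an
independent set of size `κ`. An uncountable `κ` is weakly compact iff it has this property. -/
def PairRamsey (κ : Cardinal.{u}) : Prop :=
  ∀ (X : Type u) (c : X → X → Prop), #X = κ → (∀ x y, c x y ↔ c y x) →
    ∃ H : Set X, #H = κ ∧
      ((∀ x ∈ H, ∀ y ∈ H, x ≠ y → c x y) ∨ (∀ x ∈ H, ∀ y ∈ H, x ≠ y → ¬ c x y))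

lemma exists_rec {N : Type u} {I : Type v} (r : N → N → Prop) (hr : WellFounded r)
    (bad : (n : N) → ((m : N) → r m n → I) → Set I) (h : ∀ n p, ∃ i, i ∉ bad n p) :
    ∃ p : N → I, ∀ n, p n ∉ bad n (fun m _ => p m) := by
  classical
  let p : N → I := WellFounded.fix hr (fun n rec => Classical.choose (h n rec))
  refine ⟨p, fun n => ?_⟩
  have hp : p n = Classical.choose (h n (fun m _ => p m)) := WellFounded.fix_eq _ _ _
  have := Classical.choose_spec (h n (fun m _ => p m))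
  rwa [← hp] at this

section Code
variable {L : Type u} [LinearOrder L]

/-- decoding -/
noncomputable def G (Q : Set L) (ρ : Set (Q × Q)) (x : L) : L :=
  Classical.epsilon (h := ⟨x⟩)
    (fun y : L => {q : Q | y < (q : L)} = {q : Q | ∃ q' : Q, (q, q') ∈ ρ ∧ x < q'})

lemma code (Q : Set L) (hd : ∀ x y : L, x < y → ∃ q ∈ Q, x < q ∧ q ≤ y) (A : Set L) (g : L → L)
    (hg : StrictMonoOn g A) : ∃ ρ : Set (Q × Q), #{x : L | x ∈ A ∧ G Q ρ x ≠ g x} ≤ #Q := by
  classical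
  let ρ : Set (Q × Q) := {z | ∃ a ∈ A, (z.2 : L) ≤ a ∧ g a < z.1}
  refine ⟨ρ, ?_⟩
  have key : ∀ x : L, x ∈ A ∧ G Q ρ x ≠ g x → ∃ q : Q, g x < q ∧ ∀ a ∈ A, x < a → (q : L) ≤ g a := by
    rintro x ⟨hxA, hx⟩
    by_contra hcon
    push Not at hcon
    apply hx
    have h1 : {q : Q | g x < (q : L)} = {q : Q | ∃ q' : Q, (q, q') ∈ ρ ∧ x < q'} := by
      ext q
      simp only [Set.mem_ofPred_eq]
      constructor
      · intro hq
        obtain ⟨a, ha, hxa, haq⟩ := hcon q hq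
        obtain ⟨q', hq'Q, h1, h2⟩ := hd x a hxa
        exact ⟨⟨q', hq'Q⟩, ⟨a, ha, h2, haq⟩, h1⟩
      · rintro ⟨q', ⟨a, ha, h1, h2⟩, h3⟩
        exact (hg hxA ha (h3.trans_le h1)).trans h2
    have h2 : {q : Q | G Q ρ x < (q : L)} = {q : Q | ∃ q' : Q, (q, q') ∈ ρ ∧ x < q'} :=
      Classical.epsilon_spec (p := fun y : L => {q : Q | y < (q : L)} = {q : Q | ∃ q' : Q, (q, q') ∈ ρ ∧ x < q'})
        ⟨g x, h1⟩
    have h3 : {q : Q | G Q ρ x < (q : L)} = {q : Q | g x < (q : L)} := h2.trans h1.symm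
    rcases lt_trichotomy (G Q ρ x) (g x) with h | h | h
    · obtain ⟨q, hq, h4, h5⟩ := hd _ _ h
      have : (⟨q, hq⟩ : Q) ∈ {q : Q | G Q ρ x < (q : L)} := h4
      rw [h3] at this
      exact absurd this (not_lt.2 h5)
    · exact h
    · obtain ⟨q, hq, h4, h5⟩ := hd _ _ h
      have : (⟨q, hq⟩ : Q) ∈ {q : Q | g x < (q : L)} := h4
      rw [← h3] at this
      exact absurd this (not_lt.2 h5)
  choose φ hφ1 hφ2 using key
  refine mk_le_of_injective (f := fun x : {x : L | x ∈ A ∧ G Q ρ x ≠ g x} => φ x.1 x.2) ?_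
  rintro ⟨x, hx⟩ ⟨y, hy⟩ hxy
  apply Subtype.ext
  have hxy' : φ x hx = φ y hy := hxy
  rcases lt_trichotomy x y with h | h | h
  · have h1 := hφ2 x hx y hy.1 h
    rw [hxy'] at h1
    exact absurd (hφ1 y hy) (not_lt.2 h1)
  · exact h
  · have h1 := hφ2 y hy x hx.1 h
    rw [← hxy'] at h1
    exact absurd (hφ1 x hx) (not_lt.2 h1)

end Code

lemma mk_Iio_ord_lt' {c : Cardinal.{u}} (i : c.ord.ToType) : #(Iio i) < c := by
  have := Cardinal.mk_Iio_lt i (by simp)
  simpa using this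

lemma mk_Iic_ord_lt {c : Cardinal.{u}} (hc : ℵ₀ ≤ c) (i : c.ord.ToType) : #(Iic i) < c := by
  have h : Iic i = Iio i ∪ {i} := by
    ext j; simp [le_iff_lt_or_eq, or_comm]
  rw [h]
  refine (mk_union_le _ _).trans_lt (add_lt_of_lt hc (mk_Iio_ord_lt' i) ?_)
  simpa using one_lt_aleph0.trans_le hc

/-- sets of size less than the cofinality are bounded -/
lemma bounded_of_lt_cof {c : Cardinal.{u}} {s : Set c.ord.ToType} (hs : #s < c.ord.cof) :
    ∃ b, ∀ x ∈ s, x < b := by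
  by_contra hcon
  push Not at hcon
  have h1 : IsCofinal s := fun a => by
    obtain ⟨x, hx, h⟩ := hcon a
    exact ⟨x, hx, h⟩
  have h2 := Order.cof_le h1
  rw [Ordinal.cof_toType] at h2
  exact absurd hs (not_lt.2 h2)

/-- a cofinal map from the cofinality -/
lemma exists_cofinal {c τ : Cardinal.{u}} (hτ : c.ord.cof = τ) :
    ∃ a : τ.ord.ToType → c.ord.ToType, ∀ x, ∃ i, x ≤ a i := by
  obtain ⟨s, hs, hs'⟩ := Order.exists_cof_eq (α := c.ord.ToType)
  rw [Ordinal.cof_toType, hτ] at hs'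
  have h1 : #(τ.ord.ToType) = #s := by rw [hs']; simp
  obtain ⟨e⟩ := Cardinal.eq.1 h1
  refine ⟨fun i => e i, fun x => ?_⟩
  obtain ⟨y, hy, hxy⟩ := hs x
  exact ⟨e.symm ⟨y, hy⟩, by simpa using hxy⟩

lemma exists_tends {c d : Cardinal.{u}} (hc : ℵ₀ ≤ c) (hcd : c.ord.cof = d.ord.cof) :
    ∃ h : c.ord.ToType → d.ord.ToType, ∀ i, ∃ b, ∀ x, h x < i → x ≤ b := by
  classical
  obtain ⟨τ, hτ⟩ : ∃ τ, d.ord.cof = τ := ⟨_, rfl⟩
  rw [hτ] at hcd
  obtain ⟨a, ha⟩ := exists_cofinal hcd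
  obtain ⟨b, hb⟩ := exists_cofinal hτ
  have hτ0 : ℵ₀ ≤ τ := by
    rw [← hcd, Ordinal.aleph0_le_cof_iff, Ordinal.one_lt_cof_iff]
    exact Cardinal.isSuccLimit_ord hc
  -- bounds for b on initial segments
  have hB : ∀ ξ : τ.ord.ToType, ∃ y, ∀ η ≤ ξ, b η ≤ y := by
    intro ξ
    have h1 : #(b '' Iic ξ) < d.ord.cof := by
      rw [hτ]
      exact mk_image_le.trans_lt (mk_Iic_ord_lt hτ0 ξ)
    obtain ⟨y, hy⟩ := bounded_of_lt_cof h1
    exact ⟨y, fun η hη => (hy _ ⟨η, hη, rfl⟩).le⟩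
  have hA : ∀ ξ : τ.ord.ToType, ∃ y, ∀ η < ξ, a η ≤ y := by
    intro ξ
    have h1 : #(a '' Iio ξ) < c.ord.cof := by
      rw [hcd]
      exact mk_image_le.trans_lt (mk_Iio_ord_lt' ξ)
    obtain ⟨y, hy⟩ := bounded_of_lt_cof h1
    exact ⟨y, fun η hη => (hy _ ⟨η, hη, rfl⟩).le⟩
  choose B hB using hB
  -- least index
  have hξ : ∀ x, ∃ ξ, x ≤ a ξ := ha
  choose ξ hξ using hξ
  refine ⟨fun x => B (ξ x), fun i => ?_⟩
  obtain ⟨η, hη⟩ := hb i
  obtain ⟨y, hy⟩ := hA η
  refine ⟨y, fun x hx => ?_⟩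
  have h2 : ξ x < η := by
    by_contra hcon
    push Not at hcon
    exact absurd (hx.trans_le (hη.trans (hB (ξ x) η hcon))) (lt_irrefl _)
  exact (hξ x).trans (hy _ h2)

theorem main1 {L : Type u} [LinearOrder L] (Q : Set L) (μ κ : Cardinal.{u}) (hμ : ℵ₀ ≤ μ)
    (hκ2 : (2 : Cardinal.{u}) ^ μ = κ)
    (hQ : #Q ≤ μ) (hd : ∀ x y : L, x < y → ∃ q ∈ Q, x < q ∧ q ≤ y) (hL : κ ≤ #L)
    (θ : Cardinal.{u}) (hθ : θ ≤ κ) (hcof : θ.ord.cof = κ.ord.cof) :
    ∃ C : Set L, #C = θ ∧ StronglyRigid C := by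
  classical
  have hκ : ℵ₀ ≤ κ := by rw [← hκ2]; exact hμ.trans (cantor μ).le
  have hμcof : μ < κ.ord.cof := by rw [← hκ2]; exact Cardinal.lt_cof_ord_power hμ one_lt_two
  have hμθ : μ < θ := by
    rw [← hcof] at hμcof
    exact hμcof.trans_le (by simpa using Ordinal.cof_le_card θ.ord)
  have hθ0 : ℵ₀ ≤ θ := hμ.trans hμθ.le
  obtain ⟨h, hh⟩ := exists_tends (c := κ) (d := θ) hκ hcof.symm
  have hcode : #(Set (Q × Q)) ≤ #(κ.ord.ToType) := by
    rw [mk_set, mk_prod]
    simp only [lift_id, mk_ord_toType]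
    rw [← hκ2]
    apply power_le_power_left two_ne_zero
    calc #Q * #Q ≤ μ * μ := mul_le_mul' hQ hQ
      _ = μ := mul_eq_self hμ
  obtain ⟨e⟩ := hcode
  let rk : Set (Q × Q) → θ.ord.ToType := fun ρ => h (e ρ)
  have hrk : ∀ i, #{ρ | rk ρ < i} < κ := by
    intro i
    obtain ⟨b, hb⟩ := hh i
    refine lt_of_le_of_lt ?_ (mk_Iic_ord_lt hκ b)
    refine mk_le_of_injective (f := fun ρ : {ρ | rk ρ < i} => (⟨e ρ, hb _ ρ.2⟩ : Iic b)) ?_
    intro x y hxy
    apply Subtype.ext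
    apply e.injective
    exact congrArg Subtype.val hxy
  have hIio : ∀ i : θ.ord.ToType, #(Iio i) < κ := fun i => (mk_Iio_ord_lt' i).trans_le hθ
  obtain ⟨p, hp⟩ := exists_rec (N := θ.ord.ToType) (I := L) (· < ·) wellFounded_lt
    (fun n rec => (range fun m : Iio n => rec m.1 m.2) ∪
      (range fun z : Iio n × {ρ | rk ρ < n} => G Q z.2.1 (rec z.1.1 z.1.2))) (by
    intro n rec
    by_contra hcon
    push Not at hcon
    have h1 : (univ : Set L) ⊆ (range fun m : Iio n => rec m.1 m.2) ∪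
      (range fun z : Iio n × {ρ | rk ρ < n} => G Q z.2.1 (rec z.1.1 z.1.2)) := fun x _ => hcon x
    have h2 := mk_le_mk_of_subset h1
    rw [mk_univ] at h2
    have h3 := hL.trans (h2.trans (mk_union_le _ _))
    refine absurd h3 (not_le.2 ?_)
    apply add_lt_of_lt hκ
    · exact mk_range_le.trans_lt (hIio n)
    · refine mk_range_le.trans_lt ?_
      rw [mk_prod]
      simp only [lift_id]
      exact mul_lt_of_lt hκ (hIio n) (hrk n))
  have hinj : Function.Injective p := by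
    intro i j hij
    rcases lt_trichotomy i j with h1 | h1 | h1
    · exact absurd (Or.inl ⟨⟨i, h1⟩, hij⟩) (hp j)
    · exact h1
    · exact absurd (Or.inl ⟨⟨j, h1⟩, hij.symm⟩) (hp i)
  have hG : ∀ i j ρ, i < j → G Q ρ (p i) = p j → j ≤ rk ρ := by
    intro i j ρ hij hG
    by_contra hcon
    push Not at hcon
    exact hp j (Or.inr ⟨(⟨i, hij⟩, ⟨ρ, hcon⟩), hG⟩)
  refine ⟨range p, ?_, ?_⟩
  · rw [mk_range_eq _ hinj, mk_ord_toType]
  intro D f hf
  rw [mk_range_eq _ hinj, mk_ord_toType]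
  -- extend to the ambient chain
  let A : Set L := Subtype.val '' D
  have hA : ∀ x ∈ A, ∃ h : x ∈ range p, (⟨x, h⟩ : range p) ∈ D := by
    rintro x ⟨y, hy, rfl⟩
    exact ⟨y.2, hy⟩
  let g : L → L := fun x => if h : x ∈ A then (f ⟨⟨x, (hA x h).1⟩, (hA x h).2⟩ : L) else x
  have hgA : ∀ x (h : x ∈ A), g x = (f ⟨⟨x, (hA x h).1⟩, (hA x h).2⟩ : L) := fun x h => dif_pos h
  have hg : StrictMonoOn g A := by
    intro x hx y hy hxy
    rw [hgA x hx, hgA y hy]
    exact hf (by exact hxy)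
  have hgr : ∀ x ∈ A, g x ∈ range p := by
    intro x hx
    rw [hgA x hx]
    exact (f _).2
  have hfin : #{x : D // f x ≠ x} ≤ #{x : L | x ∈ A ∧ g x ≠ x} := by
    refine mk_le_of_injective (f := fun x : {x : D // f x ≠ x} =>
      (⟨(x : L), ?_⟩ : {x : L | x ∈ A ∧ g x ≠ x})) ?_
    · have h1 : ((x : range p) : L) ∈ A := ⟨_, x.1.2, rfl⟩
      refine ⟨h1, ?_⟩
      rw [hgA _ h1]
      intro h2
      exact x.2 (Subtype.ext h2)
    · intro x y hxy
      apply Subtype.ext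
      apply Subtype.ext
      apply Subtype.ext
      simpa using hxy
  refine hfin.trans_lt ?_
  -- inverse
  have : Nonempty L := by
    rw [← mk_ne_zero_iff]
    intro h0
    rw [h0] at hL
    exact absurd (hκ.trans hL) (not_le.2 aleph0_pos)
  obtain ⟨ρ₁, h1⟩ := code Q hd A g hg
  let g' : L → L := Function.invFunOn g A
  have hg'g : ∀ x ∈ A, g' (g x) = x := fun x hx => hg.injOn.leftInvOn_invFunOn hx
  have hg' : StrictMonoOn g' (g '' A) := by
    rintro _ ⟨x, hx, rfl⟩ _ ⟨y, hy, rfl⟩ hxy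
    rw [hg'g x hx, hg'g y hy]
    exact (hg.lt_iff_lt hx hy).1 hxy
  obtain ⟨ρ₂, h2⟩ := code Q hd (g '' A) g' hg'
  let m := max (rk ρ₁) (rk ρ₂)
  have hsub : {x : L | x ∈ A ∧ g x ≠ x} ⊆ (p '' Iic m) ∪ {x : L | x ∈ A ∧ G Q ρ₁ x ≠ g x} ∪
      g' '' {x : L | x ∈ g '' A ∧ G Q ρ₂ x ≠ g' x} := by
    rintro x ⟨hxA, hx⟩
    obtain ⟨i, hi⟩ := (hA x hxA).1
    obtain ⟨j, hj⟩ := hgr x hxA
    have hij : i ≠ j := by
      rintro rfl
      exact hx (hj.symm.trans hi)
    rcases lt_or_gt_of_ne hij with hlt | hlt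
    · by_cases hc : G Q ρ₁ x = g x
      · left; left
        refine ⟨i, ?_, hi⟩
        have := hG i j ρ₁ hlt (by rw [hi, hj, hc])
        exact (hlt.le.trans this).trans (le_max_left _ _)
      · left; right
        exact ⟨hxA, hc⟩
    · by_cases hc : G Q ρ₂ (g x) = g' (g x)
      · left; left
        refine ⟨i, ?_, hi⟩
        have := hG j i ρ₂ hlt (by rw [hi, hj, hc, hg'g x hxA])
        exact this.trans (le_max_right _ _)
      · right
        exact ⟨g x, ⟨⟨x, hxA, rfl⟩, hc⟩, hg'g x hxA⟩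
  refine (mk_le_mk_of_subset hsub).trans_lt ?_
  refine (mk_union_le _ _).trans_lt (add_lt_of_lt hθ0 ?_ ?_)
  · refine (mk_union_le _ _).trans_lt (add_lt_of_lt hθ0 ?_ ?_)
    · exact mk_image_le.trans_lt (mk_Iic_ord_lt hθ0 m)
    · exact (h1.trans hQ).trans_lt hμθ
  · exact mk_image_le.trans_lt ((h2.trans hQ).trans_lt hμθ)


/-- the point of the binary lexicographic chain extending `σ` by `1` at place `i` and then `0` -/
noncomputable def qpt {ι : Type u} [LinearOrder ι] (z : Σ i : ι, (Iio i → Bool)) : Lex (ι → Bool) :=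
  toLex (fun j => if h : j < z.1 then z.2 ⟨j, h⟩ else decide (j = z.1))

lemma lex_dense {ι : Type u} [LinearOrder ι] [WellFoundedLT ι] (x y : Lex (ι → Bool)) (hxy : x < y) :
    ∃ q ∈ range (qpt (ι := ι)), x < q ∧ q ≤ y := by
  obtain ⟨i, hi, hi'⟩ := hxy
  have hi2 : (ofLex x) i = false ∧ (ofLex y) i = true := by
    simpa [Bool.lt_iff] using hi'
  let σ : Iio i → Bool := fun j => (ofLex y) j
  have hq1 : ∀ j, j < i → (ofLex (qpt ⟨i, σ⟩)) j = (ofLex y) j := by
    intro j hj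
    simp [qpt, hj, σ]
  have hq2 : (ofLex (qpt ⟨i, σ⟩)) i = true := by
    simp [qpt]
  have hq3 : ∀ j, i < j → (ofLex (qpt ⟨i, σ⟩)) j = false := by
    intro j hj
    simp [qpt, hj.not_gt, hj.ne']
  refine ⟨qpt ⟨i, σ⟩, ⟨_, rfl⟩, ?_, ?_⟩
  · refine ⟨i, fun j hj => ?_, ?_⟩
    · exact (hi j hj).trans (hq1 j hj).symm
    · show (ofLex x) i < (ofLex (qpt ⟨i, σ⟩)) i
      rw [hi2.1, hq2]
      decide
  · by_contra hcon
    rw [not_le] at hcon
    obtain ⟨j, hj, hj'⟩ := hcon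
    have h1 : (ofLex y) j = false ∧ (ofLex (qpt ⟨i, σ⟩)) j = true := by
      simpa [Bool.lt_iff] using hj'
    rcases lt_trichotomy j i with h | h | h
    · rw [hq1 j h] at h1
      exact absurd (h1.1.symm.trans h1.2) (by decide)
    · subst h
      exact absurd (h1.1.symm.trans hi2.2) (by decide)
    · exact absurd (h1.2.symm.trans (hq3 j h)) (by decide)

theorem main1' (ν μ θ : Cardinal.{u}) (hν : ℵ₀ ≤ ν) (h1 : ∀ ρ < ν, (2 : Cardinal.{u}) ^ ρ ≤ μ)
    (h2 : (2 : Cardinal.{u}) ^ ν = 2 ^ μ) (hθ : θ ≤ 2 ^ μ)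
    (hcof : θ.ord.cof = ((2 : Cardinal.{u}) ^ μ).ord.cof) : θ ∈ K := by
  classical
  have hνμ : ν ≤ μ := by
    by_contra hcon
    push Not at hcon
    exact absurd (h1 μ hcon) (not_le.2 (cantor μ))
  have hμ : ℵ₀ ≤ μ := hν.trans hνμ
  let ι := ν.ord.ToType
  have hQ : #(range (qpt (ι := ι))) ≤ μ := by
    refine mk_range_le.trans ?_
    rw [mk_sigma]
    calc (sum fun i : ι => #(Iio i → Bool)) ≤ sum fun i : ι => μ := by
          apply sum_le_sum
          intro i
          have h3 := h1 _ (mk_Iio_ord_lt' i)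
          have h4 : #(Iio i → Bool) = 2 ^ #(Iio i) := by simp
          rw [h4]
          exact h3
      _ = ν * μ := by simp [ι]
      _ ≤ μ * μ := mul_le_mul' hνμ le_rfl
      _ = μ := mul_eq_self hμ
  have hL : (2 : Cardinal.{u}) ^ μ ≤ #(Lex (ι → Bool)) := by
    have : #(Lex (ι → Bool)) = #(ι → Bool) := rfl
    have h4 : #(ι → Bool) = 2 ^ #ι := by simp
    rw [this, h4, ← h2]
    simp [ι]
  obtain ⟨C, hC, hC'⟩ := main1 (range (qpt (ι := ι))) μ _ hμ rfl hQ lex_dense hL θ hθ hcof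
  have hμθ : μ < θ := by
    have hμcof : μ < ((2 : Cardinal.{u}) ^ μ).ord.cof := Cardinal.lt_cof_ord_power hμ one_lt_two
    rw [← hcof] at hμcof
    exact hμcof.trans_le (by simpa using Ordinal.cof_le_card θ.ord)
  exact ⟨hμ.trans hμθ.le, C, inferInstance, hC, hC'⟩

lemma exists_card_cofinal {κ τ : Cardinal.{u}} (hτ : κ.ord.cof = τ) :
    ∃ b : τ.ord.ToType → Cardinal.{u}, (∀ n, b n < κ) ∧ ∀ c < κ, ∃ n, c ≤ b n := by
  obtain ⟨a, ha⟩ := exists_cofinal hτ
  refine ⟨fun n => #(Iio (a n)), fun n => mk_Iio_ord_lt' _, fun c hc => ?_⟩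
  have h1 : c.ord < Ordinal.type (α := κ.ord.ToType) (· < ·) := by
    simpa using ord_lt_ord.2 hc
  obtain ⟨x, hx⟩ := Ordinal.typein_surj (α := κ.ord.ToType) (· < ·) h1
  obtain ⟨n, hn⟩ := ha x
  refine ⟨n, ?_⟩
  have h2 : c = #(Iio x) := by
    have h3 := congrArg Ordinal.card hx
    rw [card_ord] at h3
    rw [← h3]
    rfl
  rw [h2]
  exact mk_le_mk_of_subset (Iio_subset_Iio hn)

section Orders
variable (C : Type u) [LinearOrder C]

def UpWO (W : Set C) : Prop := ∀ S ⊆ W, S.Nonempty → ∃ m ∈ S, ∀ s ∈ S, m ≤ s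

def DownWO (W : Set C) : Prop := ∀ S ⊆ W, S.Nonempty → ∃ m ∈ S, ∀ s ∈ S, s ≤ m

def MovIn (J : Set C) (c : Cardinal.{u}) : Prop :=
  ∃ (D : Set C) (f : C → C), D ⊆ J ∧ MapsTo f D J ∧ StrictMonoOn f D ∧
    c ≤ #{x : C | x ∈ D ∧ f x ≠ x}

lemma MovIn.dual {J : Set C} {c : Cardinal.{u}} (h : MovIn Cᵒᵈ J c) : MovIn C J c := by
  obtain ⟨D, f, h1, h2, h3, h4⟩ := h
  exact ⟨D, f, h1, h2, fun a ha b hb hab => h3 hb ha hab, h4⟩

lemma MovIn.mono {J J' : Set C} {c : Cardinal.{u}} (h : MovIn C J c) (hJ : J ⊆ J') :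
    MovIn C J' c := by
  obtain ⟨D, f, h1, h2, h3, h4⟩ := h
  exact ⟨D, f, h1.trans hJ, fun x hx => hJ (h2 hx), h3, h4⟩

lemma movIn_of_upWO {W : Set C} (hW : UpWO C W) (hinf : ℵ₀ ≤ #W) : MovIn C W #W := by
  classical
  let D : Set C := {t | t ∈ W ∧ ∃ t' ∈ W, t < t'}
  have hex : ∀ t : C, t ∈ D → ∃ m, (m ∈ W ∧ t < m) ∧ ∀ s ∈ W, t < s → m ≤ s := by
    rintro t ⟨_, t', ht', htt'⟩
    obtain ⟨m, hm, hm'⟩ := hW {s | s ∈ W ∧ t < s} (fun s hs => hs.1) ⟨t', ht', htt'⟩
    exact ⟨m, hm, fun s hs hts => hm' s ⟨hs, hts⟩⟩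
  choose! f hf1 hf2 using hex
  refine ⟨D, f, fun t ht => ht.1, fun t ht => (hf1 t ht).1, ?_, ?_⟩
  · intro a ha b hb hab
    exact (hf2 a ha b hb.1 hab).trans_lt (hf1 b hb).2
  · have h1 : D ⊆ {x : C | x ∈ D ∧ f x ≠ x} := fun x hx => ⟨hx, (hf1 x hx).2.ne'⟩
    have h2 : (W \ D).Subsingleton := by
      intro x hx y hy
      rcases lt_trichotomy x y with h | h | h
      · exact absurd ⟨hx.1, y, hy.1, h⟩ hx.2
      · exact h
      · exact absurd ⟨hy.1, x, hx.1, h⟩ hy.2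
    have h3 : #(W \ D : Set C) ≤ 1 := by
      rw [mk_le_one_iff_set_subsingleton]; exact h2
    have h4 : #W ≤ #D + 1 := by
      have : W ⊆ D ∪ (W \ D) := by
        intro x hx
        by_cases h : x ∈ D
        · exact Or.inl h
        · exact Or.inr ⟨hx, h⟩
      exact (mk_le_mk_of_subset this).trans ((mk_union_le _ _).trans (add_le_add le_rfl h3))
    by_contra hcon
    rw [not_le] at hcon
    have h5 : #D < #W := (mk_le_mk_of_subset h1).trans_lt hcon
    exact absurd h4 (not_le.2 (add_lt_of_lt hinf h5 (one_lt_aleph0.trans_le hinf)))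

lemma movIn_of_downWO {W : Set C} (hW : DownWO C W) (hinf : ℵ₀ ≤ #W) : MovIn C W #W :=
  MovIn.dual C (movIn_of_upWO Cᵒᵈ (W := W) hW hinf)

end Orders

/-- path lemma: a chain of size more than `2 ^ succ ν` has a (reversely) well-ordered subset of size
more than `ν` -/
lemma path_lemma (R : Type u) [LinearOrder R] (ν : Cardinal.{u}) (hν : ℵ₀ ≤ ν)
    (h : (2 : Cardinal.{u}) ^ succ ν < #R) :
    ∃ W : Set R, ν < #W ∧ (UpWO R W ∨ DownWO R W) := by
  classical
  by_contra hcon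
  push Not at hcon
  let r : R → R → Prop := WellOrderingRel
  have hr : WellFounded r := WellOrderingRel.isWellOrder.wf
  let P : R → Set R := fun x => {t | t ≠ x ∧ ∀ s ∈ uIcc t x, s ≠ t → r t s}
  have htri : ∀ a b : R, r a b ∨ a = b ∨ r b a := fun a b => trichotomous_of r a b
  have hirr : ∀ a b, r a b → r b a → False := fun a b h1 h2 => asymm_of r h1 h2
  have hPr : ∀ x, ∀ t ∈ P x, r t x := fun x t ht => ht.2 x right_mem_uIcc ht.1.symm
  -- sizes
  have hPcard : ∀ x, #(P x) ≤ ν := by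
    intro x
    have hL : #({t | t ∈ P x ∧ t < x} : Set R) ≤ ν := by
      by_contra hc
      rw [not_le] at hc
      refine (hcon _ hc).1 ?_
      intro S hS hne
      obtain ⟨m, hm, hmin⟩ := hr.has_min S hne
      refine ⟨m, hm, fun s hs => ?_⟩
      by_contra hlt
      rw [not_le] at hlt
      have h1 := (hS hs).1.2 m (by
        rw [uIcc_of_le (hS hs).2.le]
        exact ⟨hlt.le, (hS hm).2.le⟩) hlt.ne'
      exact hmin s hs h1
    have hRr : #({t | t ∈ P x ∧ x < t} : Set R) ≤ ν := by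
      by_contra hc
      rw [not_le] at hc
      refine (hcon _ hc).2 ?_
      intro S hS hne
      obtain ⟨m, hm, hmin⟩ := hr.has_min S hne
      refine ⟨m, hm, fun s hs => ?_⟩
      by_contra hlt
      rw [not_le] at hlt
      have h1 := (hS hs).1.2 m (by
        rw [uIcc_of_ge (hS hs).2.le]
        exact ⟨(hS hm).2.le, hlt.le⟩) hlt.ne
      exact hmin s hs h1
    have hsub : P x ⊆ ({t | t ∈ P x ∧ t < x} : Set R) ∪ ({t | t ∈ P x ∧ x < t} : Set R) := by
      intro t ht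
      rcases lt_or_gt_of_ne ht.1 with h1 | h1
      · exact Or.inl ⟨ht, h1⟩
      · exact Or.inr ⟨ht, h1⟩
    refine (mk_le_mk_of_subset hsub).trans ((mk_union_le _ _).trans ?_)
    exact (add_le_add hL hRr).trans (add_eq_self hν).le
  -- tree property
  have htree : ∀ x, ∀ s ∈ P x, ∀ t ∈ P x, r s t → s ∈ P t := by
    intro x s hs t ht hst
    have hne : s ≠ t := by
      rintro rfl
      exact hirr _ _ hst hst
    refine ⟨hne, ?_⟩
    intro y hy hys
    -- s is not strictly between t and x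
    by_cases h1 : y ∈ uIcc s x
    · exact hs.2 y h1 hys
    · have h2 : y ∈ uIcc t x := by
        rw [mem_uIcc] at hy h1 ⊢
        push Not at h1
        rcases le_total s x with hsx | hsx
        · rcases hy with hy | hy
          · have h3 := h1.1 hy.1
            right; exact ⟨h3.le, hy.2⟩
          · -- t ≤ y ≤ s ≤ x, then s between t and x
            left; exact ⟨hy.1, hy.2.trans hsx⟩
        · rcases hy with hy | hy
          · right
            exact ⟨hsx.trans hy.1, hy.2⟩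
          · left
            refine ⟨hy.1, ?_⟩
            by_contra hlt
            rw [not_le] at hlt
            exact absurd hy.2 (not_le.2 (h1.2 hlt.le))
      by_cases h3 : y = t
      · rw [h3]; exact hst
      · exact _root_.trans_of r hst (ht.2 y h2 h3)
  -- rank into the successor
  let Y := (succ ν).ord.ToType
  have hreg : (succ ν).ord.cof = succ ν := (isRegular_succ hν).cof_ord
  obtain ⟨rk, hrk⟩ := exists_rec (N := R) (I := Y) r hr
    (fun x rec => {y | ∃ t, ∃ h : r t x, t ∈ P x ∧ y ≤ rec t h}) (by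
      intro x rec
      let S : Set Y := range (fun t : P x => rec t.1 (hPr x _ t.2))
      have hS : #S < (succ ν).ord.cof := by
        rw [hreg]
        exact (mk_range_le.trans (hPcard x)).trans_lt (lt_succ ν)
      obtain ⟨b, hb⟩ := bounded_of_lt_cof hS
      refine ⟨b, ?_⟩
      rintro ⟨t, ht, ht', hbt⟩
      exact absurd (hb _ ⟨⟨t, ht'⟩, rfl⟩) (not_lt.2 hbt))
  have hrk' : ∀ x, ∀ t ∈ P x, rk t < rk x := by
    intro x t ht
    by_contra hc
    rw [not_lt] at hc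
    exact hrk x ⟨t, hPr x t ht, ht, hc⟩
  have hrkinj : ∀ x, ∀ s ∈ P x, ∀ t ∈ P x, rk s = rk t → s = t := by
    intro x s hs t ht hst
    rcases htri s t with h1 | h1 | h1
    · exact absurd (hrk' t s (htree x s hs t ht h1)) (by rw [hst]; exact lt_irrefl _)
    · exact h1
    · exact absurd (hrk' s t (htree x t ht s hs h1)) (by rw [hst]; exact lt_irrefl _)
  let code : R → Set (Y × Bool) := fun x => {z | ∃ t ∈ P x, z = (rk t, decide (t < x))}
  have hinj : Function.Injective code := by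
    intro x y hxy
    by_contra hne
    obtain ⟨m, hm, hmin⟩ := hr.has_min (uIcc x y) ⟨x, left_mem_uIcc⟩
    have hm' : ∀ s ∈ uIcc x y, s ≠ m → r m s := by
      intro s hs hsm
      rcases htri m s with h1 | h1 | h1
      · exact h1
      · exact absurd h1.symm hsm
      · exact absurd h1 (hmin s hs)
    by_cases hmx : m = x
    · subst hmx
      have h1 : m ∈ P y := ⟨hne, hm'⟩
      have h2 : (rk m, decide (m < y)) ∈ code y := ⟨m, h1, rfl⟩
      rw [← hxy] at h2
      obtain ⟨t, ht, ht'⟩ := h2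
      have h3 := hrk' m t ht
      have h5 : rk m = rk t := congrArg Prod.fst ht'
      rw [← h5] at h3
      exact lt_irrefl _ h3
    by_cases hmy : m = y
    · subst hmy
      have h1 : m ∈ P x := ⟨hmx, by rw [uIcc_comm]; exact hm'⟩
      have h2 : (rk m, decide (m < x)) ∈ code x := ⟨m, h1, rfl⟩
      rw [hxy] at h2
      obtain ⟨t, ht, ht'⟩ := h2
      have h3 := hrk' m t ht
      have h5 : rk m = rk t := congrArg Prod.fst ht'
      rw [← h5] at h3
      exact lt_irrefl _ h3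
    have h1 : m ∈ P x := ⟨hmx, fun s hs => hm' s (uIcc_subset_uIcc hm left_mem_uIcc hs)⟩
    have h2 : m ∈ P y := ⟨hmy, fun s hs => hm' s (uIcc_subset_uIcc hm right_mem_uIcc hs)⟩
    have h3 : (rk m, decide (m < x)) ∈ code x := ⟨m, h1, rfl⟩
    rw [hxy] at h3
    obtain ⟨t, ht, ht'⟩ := h3
    have h4 : t = m := hrkinj y t ht m h2 (Prod.ext_iff.1 ht').1.symm
    subst h4
    have h5 : decide (t < x) = decide (t < y) := (Prod.ext_iff.1 ht').2
    rw [decide_eq_decide] at h5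
    rw [mem_uIcc] at hm
    rcases hm with ⟨h6, h7⟩ | ⟨h6, h7⟩
    · have h8 : t < y := lt_of_le_of_ne h7 hmy
      exact absurd (h5.2 h8) (not_lt.2 h6)
    · have h8 : t < x := lt_of_le_of_ne h7 hmx
      exact absurd (h5.1 h8) (not_lt.2 h6)
  have h1 := mk_le_of_injective hinj
  refine absurd h1 (not_le.2 (lt_of_le_of_lt ?_ h))
  rw [mk_set, mk_prod]
  simp only [lift_uzero, mk_bool, Y, mk_ord_toType]
  apply power_le_power_left two_ne_zero
  have h2 : ℵ₀ ≤ succ ν := hν.trans (le_succ ν)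
  calc succ ν * lift.{u} 2 ≤ succ ν * succ ν :=
        mul_le_mul' le_rfl (by simpa using ((natCast_lt_aleph0 (n := 2)).le.trans h2))
    _ = succ ν := mul_eq_self h2


section Singular
variable (C : Type u) [LinearOrder C]

/-- sets of size more than `2 ^ succ ν` carry a map moving more than `ν` points -/
lemma movIn_of_large {J : Set C} {ν : Cardinal.{u}} (hν : ℵ₀ ≤ ν)
    (h : (2 : Cardinal.{u}) ^ succ ν < #J) : MovIn C J ν := by
  obtain ⟨W, hW, hW'⟩ := path_lemma J ν hν h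
  let W' : Set C := Subtype.val '' W
  have hW'J : W' ⊆ J := by rintro _ ⟨x, _, rfl⟩; exact x.2
  have hcard : #W' = #W := mk_image_eq Subtype.val_injective
  have hpre : ∀ S ⊆ W', (Subtype.val ⁻¹' S : Set J) ⊆ W := by
    intro S hS x hx
    obtain ⟨y, hy, hyx⟩ := hS hx
    rwa [← Subtype.ext hyx]
  have hne : ∀ S ⊆ W', S.Nonempty → (Subtype.val ⁻¹' S : Set J).Nonempty := by
    rintro S hS ⟨x, hx⟩
    exact ⟨⟨x, hW'J (hS hx)⟩, hx⟩
  have hmov : MovIn C W' #W' := by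
    rcases hW' with h1 | h1
    · apply movIn_of_upWO
      · intro S hS hSn
        obtain ⟨m, hm, hm'⟩ := h1 _ (hpre S hS) (hne S hS hSn)
        exact ⟨m, hm, fun s hs => hm' ⟨s, hW'J (hS hs)⟩ hs⟩
      · rw [hcard]; exact hν.trans hW.le
    · apply movIn_of_downWO
      · intro S hS hSn
        obtain ⟨m, hm, hm'⟩ := h1 _ (hpre S hS) (hne S hS hSn)
        exact ⟨m, hm, fun s hs => hm' ⟨s, hW'J (hS hs)⟩ hs⟩
      · rw [hcard]; exact hν.trans hW.le
  obtain ⟨D, f, h1, h2, h3, h4⟩ := MovIn.mono C hmov hW'J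
  exact ⟨D, f, h1, h2, h3, by rw [hcard] at h4; exact hW.le.trans h4⟩

/-- gluing maps on disjoint convex pieces -/
lemma comb {κ : Cardinal.{u}} (hκ : IsStrongLimit κ) (hκω' : ℵ₀ < κ) {I : Type u} (J : I → Set C)
    (hdis : ∀ i j, i ≠ j → Disjoint (J i) (J j)) (hconv : ∀ i, (J i).OrdConnected)
    (hmany : ∀ c < κ, κ.ord.cof ≤ #{i | c < #(J i)}) : MovIn C univ κ := by
  classical
  have hκ0 : ℵ₀ ≤ κ := hκ.aleph0_le
  obtain ⟨τ, hτ⟩ : ∃ τ, κ.ord.cof = τ := ⟨_, rfl⟩
  rw [hτ] at hmany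
  obtain ⟨b, hb1, hb2⟩ := exists_card_cofinal hτ
  let c : τ.ord.ToType → Cardinal.{u} := fun n => 2 ^ succ (max (b n) ℵ₀)
  have hc : ∀ n, c n < κ := by
    intro n
    apply hκ.isStrongPrelimit
    exact hκ.isSuccLimit.succ_lt (max_lt (hb1 n) hκω')
  obtain ⟨g, hg⟩ := exists_rec (N := τ.ord.ToType) (I := I) (· < ·) wellFounded_lt
    (fun n rec => {i | ¬ c n < #(J i)} ∪ range fun m : Iio n => rec m.1 m.2) (by
      intro n rec
      by_contra hcon
      push Not at hcon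
      have h1 : {i | c n < #(J i)} ⊆ range fun m : Iio n => rec m.1 m.2 := by
        intro i hi
        rcases hcon i with h | h
        · exact absurd hi (by simpa using h)
        · exact h
      have h2 := (hmany _ (hc n)).trans ((mk_le_mk_of_subset h1).trans mk_range_le)
      exact absurd h2 (not_le.2 (mk_Iio_ord_lt' n)))
  have hg1 : ∀ n, c n < #(J (g n)) := by
    intro n
    by_contra hc
    exact hg n (Or.inl hc)
  have hginj : Function.Injective g := by
    intro i j hij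
    rcases lt_trichotomy i j with h1 | h1 | h1
    · exact absurd (Or.inr ⟨⟨i, h1⟩, hij⟩) (hg j)
    · exact h1
    · exact absurd (Or.inr ⟨⟨j, h1⟩, hij.symm⟩) (hg i)
  have hmov : ∀ n, MovIn C (J (g n)) (max (b n) ℵ₀) := fun n =>
    movIn_of_large C (le_max_right _ _) (hg1 n)
  choose D f hD hf hmono hcard using hmov
  have huniq : ∀ x m n, x ∈ D m → x ∈ D n → m = n := by
    intro x m n hm hn
    by_contra hne
    exact (Set.disjoint_left.1 (hdis _ _ (hginj.ne hne))) (hD m hm) (hD n hn)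
  let F : C → C := fun x => if h : ∃ n, x ∈ D n then f h.choose x else x
  have hF : ∀ n, ∀ x ∈ D n, F x = f n x := by
    intro n x hx
    have h : ∃ n, x ∈ D n := ⟨n, hx⟩
    have h1 : h.choose = n := huniq x _ _ h.choose_spec hx
    simp only [F, dif_pos h, h1]
  refine ⟨⋃ n, D n, F, subset_univ _, mapsTo_univ _ _, ?_, ?_⟩
  · intro x hx y hy hxy
    obtain ⟨m, hm⟩ := mem_iUnion.1 hx
    obtain ⟨n, hn⟩ := mem_iUnion.1 hy
    rw [hF m x hm, hF n y hn]
    by_cases hmn : m = n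
    · subst hmn
      exact hmono m hm hn hxy
    · have hd := hdis _ _ (hginj.ne hmn)
      have e1 : f m x ∈ J (g m) := hf m hm
      have e2 : f n y ∈ J (g n) := hf n hn
      have e3 := hD m hm
      have e4 := hD n hn
      by_contra hlt
      rw [not_lt] at hlt
      -- f n y ≤ f m x
      rcases le_total (f n y) x with h1 | h1
      · exact Set.disjoint_left.1 hd e3 ((hconv (g n)).out e2 e4 ⟨h1, hxy.le⟩)
      · exact Set.disjoint_left.1 hd ((hconv (g m)).out e3 e1 ⟨h1, hlt⟩) e2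
  · by_contra hcon
    rw [not_le] at hcon
    obtain ⟨n, hn⟩ := hb2 _ (hκ.isSuccLimit.succ_lt hcon)
    have h1 : #{x : C | x ∈ D n ∧ f n x ≠ x} ≤ #{x : C | x ∈ (⋃ n, D n) ∧ F x ≠ x} := by
      apply mk_le_mk_of_subset
      rintro x ⟨hx, hx'⟩
      refine ⟨mem_iUnion.2 ⟨n, hx⟩, ?_⟩
      rw [hF n x hx]; exact hx'
    have h2 := (hn.trans ((le_max_left _ _).trans (hcard n))).trans h1
    exact absurd h2 (not_le.2 (lt_succ _))

omit [LinearOrder C] in
lemma many_of_unbounded {κ : Cardinal.{u}} {I : Type u} (J : I → Set C)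
    (h1 : ∀ i, #(J i) < κ) (h2 : ∀ c < κ, ∃ i, c < #(J i)) :
    ∀ c < κ, κ.ord.cof ≤ #{i | c < #(J i)} := by
  intro c hc
  by_contra hcon
  rw [not_le] at hcon
  have h3 : (⨆ i : {i | c < #(J i)}, #(J i)) < κ := iSup_lt_of_lt_cof_ord hcon (fun i => h1 i)
  obtain ⟨i, hi⟩ := h2 _ (max_lt hc h3)
  have h4 : c < #(J i) := (le_max_left _ _).trans_lt hi
  have h5 : #(J i) ≤ ⨆ i : {i | c < #(J i)}, #(J i) :=
    le_ciSup (f := fun i : {i | c < #(J i)} => #(J i)) bddAbove_of_small ⟨i, h4⟩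
  exact absurd ((le_max_right _ _).trans_lt hi) (not_lt.2 h5)


/-- all initial segments (above `x`) of size at most `c` -/
lemma card_le_succ {x : C} {c : Cardinal.{u}} (hc : ℵ₀ ≤ c) {H : Set C}
    (hH : ∀ y ∈ H, x ≤ y ∧ #(Icc x y) ≤ c) : #H ≤ succ c := by
  by_contra hcon
  rw [not_le] at hcon
  obtain ⟨S, hSH, hS⟩ := le_mk_iff_exists_subset.1 hcon.le
  have h1 : H ⊆ ⋃ s : S, Icc x (s : C) := by
    intro y hy
    have h2 : ¬ (S ⊆ Icc x y) := by
      intro h3
      have h4 := (mk_le_mk_of_subset h3).trans (hH y hy).2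
      rw [hS] at h4
      exact absurd h4 (not_le.2 (lt_succ c))
    rw [not_subset] at h2
    obtain ⟨s, hs, hsy⟩ := h2
    have h5 : y < s := by
      by_contra h6
      rw [not_lt] at h6
      exact hsy ⟨(hH s (hSH hs)).1, h6⟩
    exact mem_iUnion.2 ⟨⟨s, hs⟩, (hH y hy).1, h5.le⟩
  have h2 : #H ≤ succ c := by
    refine (mk_le_mk_of_subset h1).trans ((mk_iUnion_le_sum_mk).trans ?_)
    calc (sum fun s : S => #(Icc x (s : C))) ≤ sum fun _ : S => c :=
          sum_le_sum _ _ (fun s => (hH s (hSH s.2)).2)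
      _ = succ c * c := by simp [hS]
      _ ≤ succ c * succ c := mul_le_mul' le_rfl (le_succ c)
      _ = succ c := mul_eq_self (hc.trans (le_succ c))
  exact absurd h2 (not_le.2 hcon)

lemma case_one {κ : Cardinal.{u}} (hκ : IsStrongLimit κ) (hκω : ℵ₀ < κ) (hsing : κ.ord.cof < κ)
    (x : C) (hx : κ ≤ #{y : C | x ≤ y ∧ #(Icc x y) < κ}) : MovIn C univ κ := by
  classical
  obtain ⟨τ, hτ⟩ : ∃ τ, κ.ord.cof = τ := ⟨_, rfl⟩
  obtain ⟨b, hb1, hb2⟩ := exists_card_cofinal hτ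
  let J : τ.ord.ToType → Set C := fun n => {y | x ≤ y ∧ #(Icc x y) ≤ b n ∧ ∀ m < n, ¬ #(Icc x y) ≤ b m}
  refine comb C hκ hκω J ?_ ?_ (many_of_unbounded C J ?_ ?_)
  · intro i j hij
    rw [Set.disjoint_left]
    intro y hi hj
    rcases lt_or_gt_of_ne hij with h | h
    · exact hj.2.2 i h hi.2.1
    · exact hi.2.2 j h hj.2.1
  · intro n
    refine ⟨fun y1 h1 y2 h2 z hz => ⟨h1.1.trans hz.1, ?_, fun m hm h3 => ?_⟩⟩
    · exact (mk_le_mk_of_subset (Icc_subset_Icc_right hz.2)).trans h2.2.1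
    · exact h1.2.2 m hm ((mk_le_mk_of_subset (Icc_subset_Icc_right hz.1)).trans h3)
  · intro n
    have h1 : #(J n) ≤ succ (max (b n) ℵ₀) :=
      card_le_succ C (le_max_right _ _) (fun y hy => ⟨hy.1, hy.2.1.trans (le_max_left _ _)⟩)
    exact h1.trans_lt (hκ.isSuccLimit.succ_lt (max_lt (hb1 n) hκω))
  · intro c hc
    by_contra hcon
    push Not at hcon
    have h1 : {y : C | x ≤ y ∧ #(Icc x y) < κ} ⊆ ⋃ n, J n := by
      rintro y ⟨hy1, hy2⟩
      obtain ⟨n, hn⟩ := hb2 _ hy2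
      obtain ⟨m, hm, hmin⟩ := (wellFounded_lt (α := τ.ord.ToType)).has_min
        {n | #(Icc x y) ≤ b n} ⟨n, hn⟩
      exact mem_iUnion.2 ⟨m, hy1, hm, fun k hk hk' => hmin k hk' hk⟩
    have h2 := (mk_le_mk_of_subset h1).trans mk_iUnion_le_sum_mk
    have h3 : (sum fun n => #(J n)) ≤ τ * c := by
      calc (sum fun n => #(J n)) ≤ sum fun _ : τ.ord.ToType => c := sum_le_sum _ _ hcon
        _ = τ * c := by simp
    rw [hτ] at hsing
    exact absurd (hx.trans (h2.trans h3)) (not_le.2 (mul_lt_of_lt hκω.le hsing hc))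

lemma case_three {κ : Cardinal.{u}} (hκ : IsStrongLimit κ) (hκω : ℵ₀ < κ)
    (W : Set C) (hW : UpWO C W) (hWc : κ.ord.cof < #W)
    (hbig : ∀ x ∈ W, ∀ y ∈ W, x < y → κ ≤ #(Icc x y)) : MovIn C univ κ := by
  classical
  have hτ0 : ℵ₀ ≤ κ.ord.cof := by
    rw [Ordinal.aleph0_le_cof_iff, Ordinal.one_lt_cof_iff]
    exact Cardinal.isSuccLimit_ord hκω.le
  let D : Set C := {t | t ∈ W ∧ ∃ t' ∈ W, t < t'}
  let J : D → Set C := fun t => {r | t.1 ≤ r ∧ ∀ t' ∈ W, t.1 < t' → r < t'}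
  have hJ : ∀ t : D, κ ≤ #(J t) := by
    intro t
    obtain ⟨ht, t', ht', htt'⟩ := t.2
    obtain ⟨m, hm, hm'⟩ := hW {s | s ∈ W ∧ t.1 < s} (fun s hs => hs.1) ⟨t', ht', htt'⟩
    have h1 : Icc t.1 m ⊆ J t ∪ {m} := by
      intro r hr
      rcases lt_or_eq_of_le hr.2 with h | h
      · exact Or.inl ⟨hr.1, fun s hs hts => h.trans_le (hm' s ⟨hs, hts⟩)⟩
      · exact Or.inr h
    have h2 := (hbig t.1 ht m hm.1 hm.2).trans ((mk_le_mk_of_subset h1).trans (mk_union_le _ _))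
    by_contra hcon
    rw [not_le] at hcon
    refine absurd h2 (not_le.2 (add_lt_of_lt hκω.le hcon ?_))
    simpa using one_lt_aleph0.trans hκω
  refine comb C hκ hκω J ?_ ?_ ?_
  · intro i j hij
    rw [Set.disjoint_left]
    intro y hi hj
    have hij' : i.1 ≠ j.1 := fun h => hij (Subtype.ext h)
    rcases lt_or_gt_of_ne hij' with h | h
    · exact absurd (hi.2 j.1 j.2.1 h) (not_lt.2 hj.1)
    · exact absurd (hj.2 i.1 i.2.1 h) (not_lt.2 hi.1)
  · intro n
    exact ⟨fun y1 h1 y2 h2 z hz => ⟨h1.1.trans hz.1, fun t' ht' htt' => hz.2.trans_lt (h2.2 t' ht' htt')⟩⟩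
  · intro c hc
    have h1 : {i : D | c < #(J i)} = Set.univ := eq_univ_of_forall (fun i => hc.trans_le (hJ i))
    rw [h1, mk_univ]
    have h2 : (W \ D).Subsingleton := by
      intro x hx y hy
      rcases lt_trichotomy x y with h | h | h
      · exact absurd ⟨hx.1, y, hy.1, h⟩ hx.2
      · exact h
      · exact absurd ⟨hy.1, x, hx.1, h⟩ hy.2
    have h3 : #(W \ D : Set C) ≤ 1 := by
      rw [mk_le_one_iff_set_subsingleton]; exact h2
    have h4 : #W ≤ #D + 1 := by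
      have : W ⊆ D ∪ (W \ D) := by
        intro x hx
        by_cases h : x ∈ D
        · exact Or.inl h
        · exact Or.inr ⟨hx, h⟩
      exact (mk_le_mk_of_subset this).trans ((mk_union_le _ _).trans (add_le_add le_rfl h3))
    by_contra hcon
    rw [not_le] at hcon
    exact absurd (hWc.trans_le h4)
      (not_lt.2 (add_lt_of_lt hτ0 hcon (one_lt_aleph0.trans_le hτ0)).le)


theorem movIn_of_singular {κ : Cardinal.{u}} (hκ : IsStrongLimit κ) (hκω : ℵ₀ < κ)
    (hsing : κ.ord.cof < κ) (hC : #C = κ) : MovIn C Set.univ κ := by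
  classical
  have hτ0 : ℵ₀ ≤ κ.ord.cof := by
    rw [Ordinal.aleph0_le_cof_iff, Ordinal.one_lt_cof_iff]
    exact Cardinal.isSuccLimit_ord hκω.le
  let s : Setoid C :=
    { r := fun x y => #(uIcc x y) < κ
      iseqv :=
        { refl := fun x => by simpa using one_lt_aleph0.trans hκω
          symm := fun {x y} h => by rw [uIcc_comm]; exact h
          trans := fun {x y z} h1 h2 => by
            refine (mk_le_mk_of_subset (uIcc_subset_uIcc_union_uIcc (b := y))).trans_lt ?_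
            exact (mk_union_le _ _).trans_lt (add_lt_of_lt hκω.le h1 h2) } }
  have hs : ∀ x y, s x y ↔ #(uIcc x y) < κ := fun x y => Iff.rfl
  by_cases h1 : ∃ x, κ ≤ #{y | s x y}
  · obtain ⟨x, hx⟩ := h1
    have h2 : {y | s x y} ⊆ {y : C | x ≤ y ∧ #(Icc x y) < κ} ∪ {y : C | y ≤ x ∧ #(Icc y x) < κ} := by
      intro y hy
      have hy' : #(uIcc x y) < κ := hy
      rcases le_total x y with h | h
      · left
        rw [uIcc_of_le h] at hy'
        exact ⟨h, hy'⟩
      · right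
        rw [uIcc_of_ge h] at hy'
        exact ⟨h, hy'⟩
    have h3 := hx.trans ((mk_le_mk_of_subset h2).trans (mk_union_le _ _))
    rcases le_or_gt κ #{y : C | x ≤ y ∧ #(Icc x y) < κ} with h4 | h4
    · exact case_one C hκ hκω hsing x h4
    rcases le_or_gt κ #{y : C | y ≤ x ∧ #(Icc y x) < κ} with h5 | h5
    · apply MovIn.dual
      have h6 := case_one Cᵒᵈ hκ hκω hsing (OrderDual.toDual x) (by
        refine h5.trans (le_of_eq ?_)
        apply congrArg
        have : ∀ y : C, #(Icc y x) = #(Icc (OrderDual.toDual x) (OrderDual.toDual y)) := by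
          intro y
          apply mk_congr
          exact Equiv.subtypeEquiv OrderDual.toDual (fun z => by simp)
        simp only [this]
        rfl)
      exact h6
    exact absurd h3 (not_le.2 (add_lt_of_lt hκω.le h4 h5))
  push Not at h1
  -- the classes
  let J : Quotient s → Set C := fun q => {y | Quotient.mk s y = q}
  have hJs : ∀ x, J (Quotient.mk s x) = {y | s x y} := by
    intro x
    ext y
    simp only [J, Set.mem_ofPred_eq]
    rw [Quotient.eq]
    exact ⟨fun h => s.symm h, fun h => s.symm h⟩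
  have hJlt : ∀ q, #(J q) < κ := by
    intro q
    induction q using Quotient.inductionOn with
    | h x => rw [hJs]; exact h1 x
  by_cases h2 : ∀ c < κ, ∃ q, c < #(J q)
  · refine comb C hκ hκω J ?_ ?_ (many_of_unbounded C J hJlt h2)
    · intro i j hij
      rw [Set.disjoint_left]
      intro y hi hj
      exact hij (hi.symm.trans hj)
    · intro q
      refine ⟨fun y1 h1 y2 h2 z hz => ?_⟩
      have h3 : Quotient.mk s y1 = Quotient.mk s y2 := h1.trans h2.symm
      have h4 : s y1 y2 := Quotient.exact h3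
      have h5 : s y1 z := by
        rw [hs] at h4 ⊢
        exact (mk_le_mk_of_subset (uIcc_subset_uIcc_left (mem_uIcc_of_le hz.1 hz.2))).trans_lt h4
      show Quotient.mk s z = q
      rw [← show Quotient.mk s y1 = q from h1]
      exact Quotient.sound (s.symm h5)
  push Not at h2
  obtain ⟨c, hc, hc'⟩ := h2
  -- representatives
  let R : Set C := range (Quotient.out : Quotient s → C)
  have hRinj : Function.Injective (Quotient.out : Quotient s → C) := fun a b h => by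
    rw [← Quotient.out_eq a, ← Quotient.out_eq b, h]
  have hQ : #(Quotient s) = κ := by
    apply le_antisymm
    · rw [← hC]; exact mk_quotient_le
    · by_contra hcon
      rw [not_le] at hcon
      have h3 : (Set.univ : Set C) ⊆ ⋃ q, J q := fun y _ => mem_iUnion.2 ⟨Quotient.mk s y, rfl⟩
      have h4 := (mk_le_mk_of_subset h3).trans mk_iUnion_le_sum_mk
      rw [mk_univ, hC] at h4
      have h5 : (sum fun q => #(J q)) ≤ #(Quotient s) * c := by
        calc (sum fun q => #(J q)) ≤ sum fun _ : Quotient s => c := sum_le_sum _ _ hc'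
          _ = #(Quotient s) * c := by simp
      exact absurd (h4.trans h5) (not_le.2 (mul_lt_of_lt hκω.le hcon hc))
  have hR : #R = κ := by rw [mk_range_eq _ hRinj, hQ]
  have hRsep : ∀ x ∈ R, ∀ y ∈ R, x ≠ y → κ ≤ #(uIcc x y) := by
    rintro _ ⟨a, rfl⟩ _ ⟨b, rfl⟩ hne
    by_contra hcon
    rw [not_le] at hcon
    apply hne
    have : s a.out b.out := hcon
    have h3 := Quotient.sound this
    rw [Quotient.out_eq, Quotient.out_eq] at h3
    rw [h3]
  obtain ⟨W, hW, hW'⟩ := path_lemma R κ.ord.cof hτ0 (by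
    rw [hR]
    apply hκ.isStrongPrelimit
    exact hκ.isSuccLimit.succ_lt hsing)
  let W' : Set C := Subtype.val '' W
  have hW'R : W' ⊆ R := by rintro _ ⟨x, _, rfl⟩; exact x.2
  have hcard : #W' = #W := mk_image_eq Subtype.val_injective
  have hpre : ∀ S ⊆ W', (Subtype.val ⁻¹' S : Set R) ⊆ W := by
    intro S hS x hx
    obtain ⟨y, hy, hyx⟩ := hS hx
    rwa [← Subtype.ext hyx]
  have hne : ∀ S ⊆ W', S.Nonempty → (Subtype.val ⁻¹' S : Set R).Nonempty := by
    rintro S hS ⟨x, hx⟩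
    exact ⟨⟨x, hW'R (hS hx)⟩, hx⟩
  rcases hW' with h3 | h3
  · refine case_three C hκ hκω W' ?_ (by rw [hcard]; exact hW) ?_
    · intro S hS hSn
      obtain ⟨m, hm, hm'⟩ := h3 _ (hpre S hS) (hne S hS hSn)
      exact ⟨m, hm, fun s hs => hm' ⟨s, hW'R (hS hs)⟩ hs⟩
    · intro x hx y hy hxy
      have := hRsep x (hW'R hx) y (hW'R hy) hxy.ne
      rwa [uIcc_of_le hxy.le] at this
  · apply MovIn.dual
    refine case_three Cᵒᵈ hκ hκω W' ?_ (hW.trans_eq hcard.symm) ?_
    · intro S hS hSn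
      obtain ⟨m, hm, hm'⟩ := h3 _ (hpre S hS) (hne S hS hSn)
      exact ⟨OrderDual.toDual (m : C), hm, fun s hs => hm' ⟨s, hW'R (hS hs)⟩ hs⟩
    · intro x hx y hy hxy
      have h4 := hRsep (OrderDual.ofDual y) (hW'R hy) (OrderDual.ofDual x) (hW'R hx)
        (ne_of_lt (OrderDual.ofDual_lt_ofDual.2 hxy))
      rw [uIcc_of_le (OrderDual.ofDual_le_ofDual.2 hxy.le)] at h4
      refine h4.trans (le_of_eq ?_)
      apply mk_congr
      exact Equiv.subtypeEquiv OrderDual.toDual (fun z => by simp)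

end Singular


/-! ### conclusions -/

lemma not_rigid {C : Type u} [LinearOrder C] (h : MovIn C Set.univ #C) : ¬ StronglyRigid C := by
  intro hr
  obtain ⟨D, f, _, _, h3, h4⟩ := h
  have h5 := hr D (fun x => f x) (fun x y hxy => h3 x.2 y.2 hxy)
  refine absurd h4 (not_le.2 (lt_of_le_of_lt ?_ h5))
  refine mk_le_of_injective (f := fun x : {x : C | x ∈ D ∧ f x ≠ x} =>
    (⟨⟨x.1, x.2.1⟩, x.2.2⟩ : {x : D // f x ≠ (x : C)})) ?_
  intro x y hxy
  apply Subtype.ext
  simpa using hxy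

lemma not_rigid_of_wo {C : Type u} [LinearOrder C] {W : Set C} (hC : ℵ₀ ≤ #C) (hW : #W = #C)
    (h : UpWO C W ∨ DownWO C W) : ¬ StronglyRigid C := by
  apply not_rigid
  rw [← hW]
  rcases h with h | h
  · exact MovIn.mono C (movIn_of_upWO C h (by rw [hW]; exact hC)) (subset_univ _)
  · exact MovIn.mono C (movIn_of_downWO C h (by rw [hW]; exact hC)) (subset_univ _)

lemma not_rigid_countable {C : Type u} [LinearOrder C] (hC : #C = ℵ₀) : ¬ StronglyRigid C := by
  have : Infinite C := by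
    rw [infinite_iff, hC]
  let f := Infinite.natEmbedding C
  obtain ⟨g, hg⟩ := exists_increasing_or_nonincreasing_subseq (· < ·) (f : ℕ → C)
  have hinj : Function.Injective (fun n => f (g n)) := fun m n h => g.injective (f.injective h)
  have hcard : #(range fun n => f (g n)) = #C := by
    have h1 := mk_range_eq_of_injective hinj
    rw [hC]
    simpa using h1
  refine not_rigid_of_wo (W := range fun n => f (g n)) (by rw [hC]) hcard ?_
  rcases hg with hg | hg
  · left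
    intro S hS hne
    obtain ⟨x, hx⟩ := hne
    obtain ⟨k, hk⟩ := hS hx
    obtain ⟨m, hm, hmin⟩ := (wellFounded_lt (α := ℕ)).has_min {n | f (g n) ∈ S}
      ⟨k, by rw [Set.mem_ofPred_eq]; rw [show f (g k) = x from hk]; exact hx⟩
    refine ⟨_, hm, fun s hs => ?_⟩
    obtain ⟨n, rfl⟩ := hS hs
    have h1 : m ≤ n := by
      by_contra h2
      exact hmin n hs (not_le.1 h2)
    rcases lt_or_eq_of_le h1 with h2 | h2
    · exact (hg m n h2).le
    · rw [h2]
  · right
    intro S hS hne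
    obtain ⟨x, hx⟩ := hne
    obtain ⟨k, hk⟩ := hS hx
    obtain ⟨m, hm, hmin⟩ := (wellFounded_lt (α := ℕ)).has_min {n | f (g n) ∈ S}
      ⟨k, by rw [Set.mem_ofPred_eq]; rw [show f (g k) = x from hk]; exact hx⟩
    refine ⟨_, hm, fun s hs => ?_⟩
    obtain ⟨n, rfl⟩ := hS hs
    have h1 : m ≤ n := by
      by_contra h2
      exact hmin n hs (not_le.1 h2)
    rcases lt_or_eq_of_le h1 with h2 | h2
    · exact not_lt.1 (hg m n h2)
    · rw [h2]

lemma not_rigid_of_ramsey {C : Type u} [LinearOrder C] (hC : ℵ₀ ≤ #C) (hR : PairRamsey #C) :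
    ¬ StronglyRigid C := by
  let r : C → C → Prop := WellOrderingRel
  have hr : WellFounded r := WellOrderingRel.isWellOrder.wf
  have htri : ∀ a b : C, r a b ∨ a = b ∨ r b a := fun a b => trichotomous_of r a b
  have hirr : ∀ a b, r a b → r b a → False := fun a b h1 h2 => asymm_of r h1 h2
  obtain ⟨H, hH, hH'⟩ := hR C (fun x y => (x < y ∧ r x y) ∨ (y < x ∧ r y x)) rfl
    (fun x y => or_comm)
  refine not_rigid_of_wo hC hH ?_
  rcases hH' with h | h
  · left
    intro S hS hne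
    obtain ⟨m, hm, hmin⟩ := hr.has_min S hne
    refine ⟨m, hm, fun s hs => ?_⟩
    by_contra hlt
    rw [not_le] at hlt
    rcases h s (hS hs) m (hS hm) hlt.ne with h1 | h1
    · exact hmin s hs h1.2
    · exact absurd hlt h1.1.not_gt
  · right
    intro S hS hne
    obtain ⟨m, hm, hmin⟩ := hr.has_min S hne
    refine ⟨m, hm, fun s hs => ?_⟩
    by_contra hlt
    rw [not_le] at hlt
    have h1 := h s (hS hs) m (hS hm) hlt.ne'
    apply h1
    right
    refine ⟨hlt, ?_⟩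
    rcases htri m s with h2 | h2 | h2
    · exact h2
    · exact absurd h2 hlt.ne
    · exact absurd h2 (hmin s hs)

/-- a strong limit member of `K` is inaccessible and not weakly compact -/
theorem strongLimit_mem {κ : Cardinal.{u}} (hK : κ ∈ K) (hκ : IsStrongLimit κ) :
    κ.IsInaccessible ∧ ¬ PairRamsey κ := by
  obtain ⟨h0, C, _, hC, hrig⟩ := hK
  have hω : ℵ₀ < κ := by
    refine lt_of_le_of_ne h0 ?_
    intro h
    exact not_rigid_countable (hC.trans h.symm) hrig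
  refine ⟨⟨hω, ?_, fun {x} hx => hκ.isStrongPrelimit hx⟩, ?_⟩
  · by_contra hsing
    rw [not_le] at hsing
    apply not_rigid (C := C) _ hrig
    rw [hC]
    exact movIn_of_singular C hκ hω hsing hC
  · intro hR
    rw [← hC] at hR h0
    exact not_rigid_of_ramsey h0 hR hrig

theorem locMain :
    -- subsets of the real line
    (∀ θ ≤ 𝔠, θ.ord.cof = (𝔠 : Cardinal.{0}).ord.cof → ∃ S : Set ℝ, #S = θ ∧ StronglyRigid S) ∧
    -- the general existence theorem
    (∀ ν μ θ : Cardinal.{u}, ℵ₀ ≤ ν → (∀ ρ < ν, 2 ^ ρ ≤ μ) → (2 : Cardinal.{u}) ^ ν = 2 ^ μ →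
      θ ≤ 2 ^ μ → θ.ord.cof = ((2 : Cardinal.{u}) ^ μ).ord.cof → θ ∈ K) ∧
    (∀ μ : Cardinal.{u}, ℵ₀ ≤ μ → (∀ ρ < μ, 2 ^ ρ ≤ μ) →
      2 ^ μ ∈ K ∧ ((2 : Cardinal.{u}) ^ μ).ord.cof ∈ K) ∧
    (∀ μ : Cardinal.{u}, ℵ₀ ≤ μ → 2 ^ μ = succ μ → succ μ ∈ K) ∧
    -- the nonexistence theorem
    (∀ κ ∈ K.{u}, κ.IsStrongLimit → κ.IsInaccessible ∧ ¬ PairRamsey κ) ∧
    -- under GCH
    ((∀ μ : Cardinal.{u}, ℵ₀ ≤ μ → 2 ^ μ = succ μ) →
      ∀ κ : Cardinal.{u}, ℵ₀ ≤ κ → ¬ κ.IsInaccessible → (κ ∈ K ↔ ∃ μ, κ = succ μ)) := by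
  have hsucc : ∀ μ : Cardinal.{u}, ℵ₀ ≤ μ → 2 ^ μ = succ μ → succ μ ∈ K := by
    intro μ hμ h
    -- the least exponent
    have hne : {ν : Cardinal.{u} | μ < 2 ^ ν}.Nonempty := ⟨μ, cantor μ⟩
    obtain ⟨ν, hν, hmin⟩ := (wellFounded_lt (α := Cardinal.{u})).has_min _ hne
    have hν' : μ < 2 ^ ν := hν
    have h1 : ∀ ρ < ν, 2 ^ ρ ≤ μ := by
      intro ρ hρ
      by_contra hc
      exact hmin ρ (not_le.1 hc) hρ
    have hνμ : ν ≤ μ := by
      by_contra hc
      exact hmin μ (cantor μ) (not_le.1 hc)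
    have h2 : (2 : Cardinal.{u}) ^ ν = 2 ^ μ := by
      apply le_antisymm (power_le_power_left two_ne_zero hνμ)
      rw [h]
      exact succ_le_of_lt hν'
    have hν0 : ℵ₀ ≤ ν := by
      by_contra hc
      rw [not_le] at hc
      have h3 : (2 : Cardinal.{u}) ^ ν < ℵ₀ := power_lt_aleph0 (natCast_lt_aleph0 (n := 2)) hc
      exact absurd (hμ.trans hν'.le) (not_le.2 h3)
    rw [← h]
    exact main1' ν μ _ hν0 h1 h2 le_rfl rfl
  refine ⟨?_, fun ν μ θ h1 h2 h3 h4 h5 => main1' ν μ θ h1 h2 h3 h4 h5, ?_, hsucc,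
    fun κ hK hκ => strongLimit_mem hK hκ, ?_⟩
  · intro θ hθ hcof
    refine main1 (range ((↑) : ℚ → ℝ)) ℵ₀ 𝔠 le_rfl two_power_aleph0 ?_ ?_ ?_ θ hθ hcof
    · exact mk_range_le.trans (by simp)
    · intro x y hxy
      obtain ⟨q, hq1, hq2⟩ := exists_rat_btwn hxy
      exact ⟨q, ⟨q, rfl⟩, hq1, hq2.le⟩
    · rw [mk_real]
  · intro μ hμ h
    refine ⟨main1' μ μ _ hμ h rfl le_rfl rfl, main1' μ μ _ hμ h rfl ?_ ?_⟩
    · simpa using Ordinal.cof_le_card ((2 : Cardinal.{u}) ^ μ).ord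
    · exact Ordinal.cof_ord_cof _
  · intro hGCH κ hκ hacc
    constructor
    · intro hK
      by_contra hcon
      push Not at hcon
      apply hacc
      have hlim : κ.IsStrongLimit := by
        refine ⟨fun h => ?_, fun x hx => ?_⟩
        · rw [h] at hκ
          exact absurd hκ (not_le.2 aleph0_pos)
        · rcases lt_or_ge x ℵ₀ with h | h
          · exact (power_lt_aleph0 (natCast_lt_aleph0 (n := 2)) h).trans_le hκ
          · rw [hGCH x h]
            exact lt_of_le_of_ne (succ_le_of_lt hx) (hcon x).symm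
      exact (strongLimit_mem hK hlim).1
    · rintro ⟨μ, rfl⟩
      have hμ : ℵ₀ ≤ μ := by
        by_contra hc
        rw [not_le] at hc
        have h1 : succ μ ≤ (2 : Cardinal.{u}) ^ μ := succ_le_of_lt (cantor μ)
        exact absurd (hκ.trans h1) (not_le.2 (power_lt_aleph0 (natCast_lt_aleph0 (n := 2)) hc))
      exact hsucc μ hμ (hGCH μ hμ)

end Pool.Agent.Helper330.SRC.Loc
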