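import Pool.Agent.Helper330.SRC.Defs

set_option autoImplicit false
set_option linter.all false

/-!
# Forcing strongly rigid chains

A sentence of the forcing language of a preordered set `P` of conditions is represented by the
set of the conditions which force it. Negation, conjunction and universal quantification are the
primitive connectives, with their usual forcing clauses; the other connectives are defined from
them classically. A name for a subset of a ground model set `X` is a map sending `x : X` to the
set of the conditions attached to `x`.
-/

namespace Pool.Agent.Helper330.SRC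
open Set Cardinal



universe u v w
variable {I : Type u}

theorem amalg (p q : Cond I) (h : ∀ i, p.f i ≠ [] → q.f i ≠ [] → p.f i = q.f i) :
    ∃ r : Cond I, r ≤ p ∧ r ≤ q ∧ (∀ i, r.f i = p.f i ∨ r.f i = q.f i) ∧
      (∀ i, q.f i = [] → r.f i = p.f i) ∧ ∀ i, p.f i = [] → r.f i = q.f i := by
  classical
  refine ⟨⟨fun i => if p.f i = [] then q.f i else p.f i, ?_⟩, ?_, ?_, ?_, ?_, ?_⟩
  · refine (p.fin.union q.fin).subset ?_
    intro i hi
    have hi' : (if p.f i = [] then q.f i else p.f i) ≠ [] := hi
    by_cases h1 : p.f i = []
    · right
      rw [if_pos h1] at hi'
      exact hi'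
    · left
      exact h1
  · intro i
    show p.f i <+: (if p.f i = [] then q.f i else p.f i)
    by_cases h1 : p.f i = []
    · rw [h1]
      exact List.nil_prefix
    · rw [if_neg h1]
  · intro i
    show q.f i <+: (if p.f i = [] then q.f i else p.f i)
    by_cases h1 : p.f i = []
    · rw [if_pos h1]
    · rw [if_neg h1]
      by_cases h2 : q.f i = []
      · rw [h2]
        exact List.nil_prefix
      · rw [h i h1 h2]
  · intro i
    show (if p.f i = [] then q.f i else p.f i) = p.f i ∨ (if p.f i = [] then q.f i else p.f i) = q.f i
    by_cases h1 : p.f i = []
    · right
      rw [if_pos h1]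
    · left
      rw [if_neg h1]
  · intro i hi
    show (if p.f i = [] then q.f i else p.f i) = p.f i
    by_cases h1 : p.f i = []
    · rw [if_pos h1, hi, h1]
    · rw [if_neg h1]
  · intro i hi
    show (if p.f i = [] then q.f i else p.f i) = q.f i
    rw [if_pos hi]

end Pool.Agent.Helper330.SRC
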