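import Pool.Agent.Helper330.SRC.Defs
import Pool.Agent.Helper330.SRC.P_deltaSystem

set_option autoImplicit false
set_option linter.all false

/-!
# Forcing strongly rigid chains

A sentence of the forcing language of a preordered set `P` of conditions is represented by the
set of the conditions which force it. Negation, conjunction and universal quantification are the
primitive connectives, with their usual forcing clauses; the other connectives are defined from
them classically. A name for a subset of a ground model set `X` is a map sending `x : X` to the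
set of the conditions attached to `x`.
-/

namespace Pool.Agent.Helper330.SRC
open Set Cardinal



universe u v w
variable {I : Type u}

theorem thin {J : Type v} {C : Type} [Countable C] (p : J → Cond I) (T : J → Finset I)
    (hT : ∀ j i, (p j).f i ≠ [] → i ∈ T j) (c : J → C) (E : Set J) (hE : ¬ E.Countable) :
    ∃ (E' : Set J) (R : Finset I), E' ⊆ E ∧ ¬ E'.Countable ∧
      (∀ i ∈ E', ∀ j ∈ E', i ≠ j → ∀ t ∈ T i, t ∈ T j → t ∈ R) ∧
      (∀ i ∈ E', ∀ j ∈ E', ∀ t ∈ R, (p i).f t = (p j).f t) ∧
      ∀ i ∈ E', ∀ j ∈ E', c i = c j := by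
  obtain ⟨E1, R, hE1, hu, hd⟩ := deltaSystem T E hE
  let κ : J → ((R → List Bool) × C) := fun j => (fun t => (p j).f t, c j)
  have hex : ∃ y, ¬ (E1 ∩ κ ⁻¹' {y}).Countable := by
    by_contra hcon
    push Not at hcon
    apply hu
    have h1 : E1 ⊆ ⋃ y, (E1 ∩ κ ⁻¹' {y}) := by
      intro j hj
      rw [Set.mem_iUnion]
      exact ⟨κ j, hj, rfl⟩
    exact (Set.countable_iUnion hcon).mono h1
  obtain ⟨y, hy⟩ := hex
  refine ⟨E1 ∩ κ ⁻¹' {y}, R, fun j hj => hE1 hj.1, hy, ?_, ?_, ?_⟩
  · intro i hi j hj
    exact hd i hi.1 j hj.1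
  · intro i hi j hj t ht
    have h1 : κ i = κ j := by
      have a1 : κ i = y := hi.2
      have a2 : κ j = y := hj.2
      rw [a1, a2]
    have h2 : (fun t : R => (p i).f t) = (fun t : R => (p j).f t) := congrArg Prod.fst h1
    exact congrFun h2 ⟨t, ht⟩
  · intro i hi j hj
    have h1 : κ i = κ j := by
      have a1 : κ i = y := hi.2
      have a2 : κ j = y := hj.2
      rw [a1, a2]
    exact congrArg Prod.snd h1

end Pool.Agent.Helper330.SRC
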