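import Pool.Agent.Helper330.SRC.Defs
import Pool.Agent.Helper330.SRC.P_thin
import Pool.Agent.Helper330.SRC.P_amalg

set_option autoImplicit false
set_option linter.all false

/-!
# Forcing strongly rigid chains

A sentence of the forcing language of a preordered set `P` of conditions is represented by the
set of the conditions which force it. Negation, conjunction and universal quantification are the
primitive connectives, with their usual forcing clauses; the other connectives are defined from
them classically. A name for a subset of a ground model set `X` is a map sending `x : X` to the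
set of the conditions attached to `x`.
-/

namespace Pool.Agent.Helper330.SRC
open Set Cardinal



universe u v w
variable {I : Type u}

theorem ccc {J : Type v} (p : J → Cond I) (E : Set J) (hE : ¬ E.Countable) :
    ∃ i ∈ E, ∃ j ∈ E, i ≠ j ∧ ∃ r, r ≤ p i ∧ r ≤ p j := by
  obtain ⟨E', R, hsub, hunc, hR1, hR2, -⟩ :=
    thin (C := Unit) p (fun j => (p j).fin.toFinset)
      (fun j i h => by simpa using h) (fun _ => ()) E hE
  have hns : ¬ E'.Subsingleton := fun h => hunc h.countable
  rw [Set.not_subsingleton_iff] at hns
  obtain ⟨i, hi, j, hj, hij⟩ := hns
  obtain ⟨r, hr1, hr2, -⟩ := amalg (p i) (p j) (fun t h1 h2 => by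
    have ht : t ∈ R := hR1 i hi j hj hij t (by simpa using h1) (by simpa using h2)
    exact hR2 i hi j hj t ht)
  exact ⟨i, hsub hi, j, hsub hj, hij, r, hr1, hr2⟩

end Pool.Agent.Helper330.SRC
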