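import Pool.Agent.Helper330.SRC.Defs
import Pool.Agent.Helper330.SRC.P_ccc

set_option autoImplicit false
set_option linter.all false

/-!
# Forcing strongly rigid chains

A sentence of the forcing language of a preordered set `P` of conditions is represented by the
set of the conditions which force it. Negation, conjunction and universal quantification are the
primitive connectives, with their usual forcing clauses; the other connectives are defined from
them classically. A name for a subset of a ground model set `X` is a map sending `x : X` to the
set of the conditions attached to `x`.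
-/

namespace Pool.Agent.Helper330.SRC
open Set Cardinal



universe u v w
variable {I : Type u}

theorem vals {X : Type v} {Y : Type w} (R : X → Y → Set (Cond I)) (p : Cond I)
    (h : p ∈ IsPartFun R) (x : X) : {y | ∃ q ≤ p, q ∈ meets (R x y)}.Countable := by
  classical
  by_contra hc
  have hex : ∀ y : Y, ∃ q : Cond I, (∃ q' ≤ p, q' ∈ meets (R x y)) →
      (q ≤ p ∧ q ∈ meets (R x y)) := by
    intro y
    by_cases hy : ∃ q' ≤ p, q' ∈ meets (R x y)
    · obtain ⟨q', h1, h2⟩ := hy
      exact ⟨q', fun _ => ⟨h1, h2⟩⟩
    · exact ⟨p, fun hy' => absurd hy' hy⟩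
  choose q hq using hex
  obtain ⟨y, hy, y', hy', hne, r, hr, hr'⟩ := ccc q _ hc
  have h1 := hq y hy
  have h2 := hq y' hy'
  have h3 : r ∈ meets (R x y) := down_meets _ _ h1.2 _ hr
  have h4 : r ∈ meets (R x y') := down_meets _ _ h2.2 _ hr'
  obtain ⟨r', _, h5⟩ := mem_fimp.mp (h x y y') r (hr.trans h1.1) ⟨h3, h4⟩
  exact hne h5

end Pool.Agent.Helper330.SRC
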