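import Pool.Agent.Helper330.SRC.Defs
import Pool.Agent.Helper330.SRC.P_vals

set_option autoImplicit false
set_option linter.all false

/-!
# Forcing strongly rigid chains

A sentence of the forcing language of a preordered set `P` of conditions is represented by the
set of the conditions which force it. Negation, conjunction and universal quantification are the
primitive connectives, with their usual forcing clauses; the other connectives are defined from
them classically. A name for a subset of a ground model set `X` is a map sending `x : X` to the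
set of the conditions attached to `x`.
-/

namespace Pool.Agent.Helper330.SRC
open Set Cardinal



universe u v w
variable {I : Type u}

theorem cards (p : Cond I) : p ∈ CardinalsPreserved.{u, v} (Cond I) := by
  intro X Y h q hq hmem
  obtain ⟨r, hr, R, ⟨hR1, hR2⟩, hR3⟩ := mem_fex.1 hmem q (le_refl q)
  have hcov : (⋃ x : X, {y : Y | ∃ q ≤ r, q ∈ meets (R x y)}) = Set.univ := by
    rw [Set.eq_univ_iff_forall]
    intro y
    obtain ⟨r1, hr1, x, hx⟩ := mem_fex.1 (hR3 y) r (le_refl r)
    exact Set.mem_iUnion.2 ⟨x, r1, hr1, hx⟩
  have h1 : #Y ≤ #X * ℵ₀ := by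
    calc #Y = #(Set.univ : Set Y) := Cardinal.mk_univ.symm
      _ = #(⋃ x : X, {y : Y | ∃ q ≤ r, q ∈ meets (R x y)} : Set Y) := by rw [hcov]
      _ ≤ Cardinal.sum fun x : X => #{y : Y | ∃ q ≤ r, q ∈ meets (R x y)} :=
          Cardinal.mk_iUnion_le_sum_mk
      _ ≤ Cardinal.sum fun _ : X => ℵ₀ :=
          Cardinal.sum_le_sum _ _ fun x => (vals R r hR1 x).le_aleph0
      _ = #X * ℵ₀ := Cardinal.sum_const' _ _
  have h2 : #X * ℵ₀ < #Y := Cardinal.mul_lt_of_lt h.2.le h.1 h.2
  exact absurd h1 (not_le.2 h2)

end Pool.Agent.Helper330.SRC
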