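import Pool.Agent.Helper330.SRC.Defs

set_option autoImplicit false
set_option linter.all false

/-!
# Forcing strongly rigid chains

A sentence of the forcing language of a preordered set `P` of conditions is represented by the
set of the conditions which force it. Negation, conjunction and universal quantification are the
primitive connectives, with their usual forcing clauses; the other connectives are defined from
them classically. A name for a subset of a ground model set `X` is a map sending `x : X` to the
set of the conditions attached to `x`.
-/

namespace Pool.Agent.Helper330.SRC
open Set Cardinal



universe u v w
variable {I : Type u}

theorem lxIrr (i : I) (p : Cond I) : p ∉ meets (lx i i) := by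
  intro h
  obtain ⟨q, _, s, h1, h2⟩ := meets_lx h
  have h3 : (s ++ [false]) <+: (s ++ [true]) :=
    List.prefix_of_prefix_length_le h1 h2 (by simp)
  have h4 : s ++ [false] = s ++ [true] := h3.eq_of_length (by simp)
  simpa using h4

end Pool.Agent.Helper330.SRC
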