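import Pool.Agent.Helper330.SRC.Defs

set_option autoImplicit false
set_option linter.all false

/-!
# Forcing strongly rigid chains

A sentence of the forcing language of a preordered set `P` of conditions is represented by the
set of the conditions which force it. Negation, conjunction and universal quantification are the
primitive connectives, with their usual forcing clauses; the other connectives are defined from
them classically. A name for a subset of a ground model set `X` is a map sending `x : X` to the
set of the conditions attached to `x`.
-/

namespace Pool.Agent.Helper330.SRC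
open Set Cardinal



universe u v w
variable {I : Type u}

theorem lxTot_aux : ∀ u v : List Bool, ∃ u' v' s : List Bool, u <+: u' ∧ v <+: v' ∧
    ((s ++ [false] <+: u' ∧ s ++ [true] <+: v') ∨ (s ++ [false] <+: v' ∧ s ++ [true] <+: u')) := by
  have key : ∀ (b : Bool) (w : List Bool), [b] <+: b :: w := fun b w => ⟨w, rfl⟩
  intro u
  induction u with
  | nil =>
    intro v
    cases v with
    | nil => exact ⟨[false], [true], [], List.nil_prefix, List.nil_prefix, Or.inl ⟨key _ _, key _ _⟩⟩
    | cons b v1 =>
      cases b with
      | true => exact ⟨[false], true :: v1, [], List.nil_prefix, List.prefix_rfl, Or.inl ⟨key _ _, key _ _⟩⟩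
      | false => exact ⟨[true], false :: v1, [], List.nil_prefix, List.prefix_rfl, Or.inr ⟨key _ _, key _ _⟩⟩
  | cons b u1 ih =>
    intro v
    cases v with
    | nil =>
      cases b with
      | true => exact ⟨true :: u1, [false], [], List.prefix_rfl, List.nil_prefix, Or.inr ⟨key _ _, key _ _⟩⟩
      | false => exact ⟨false :: u1, [true], [], List.prefix_rfl, List.nil_prefix, Or.inl ⟨key _ _, key _ _⟩⟩
    | cons c v1 =>
      cases b with
      | true =>
        cases c with
        | true =>
          obtain ⟨u', v', s, h1, h2, h3⟩ := ih v1
          refine ⟨true :: u', true :: v', true :: s, (List.prefix_cons_inj true).2 h1, (List.prefix_cons_inj true).2 h2, ?_⟩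
          rcases h3 with ⟨h3, h4⟩ | ⟨h3, h4⟩
          · exact Or.inl ⟨(List.prefix_cons_inj true).2 h3, (List.prefix_cons_inj true).2 h4⟩
          · exact Or.inr ⟨(List.prefix_cons_inj true).2 h3, (List.prefix_cons_inj true).2 h4⟩
        | false => exact ⟨true :: u1, false :: v1, [], List.prefix_rfl, List.prefix_rfl, Or.inr ⟨key _ _, key _ _⟩⟩
      | false =>
        cases c with
        | true => exact ⟨false :: u1, true :: v1, [], List.prefix_rfl, List.prefix_rfl, Or.inl ⟨key _ _, key _ _⟩⟩
        | false =>
          obtain ⟨u', v', s, h1, h2, h3⟩ := ih v1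
          refine ⟨false :: u', false :: v', false :: s, (List.prefix_cons_inj false).2 h1, (List.prefix_cons_inj false).2 h2, ?_⟩
          rcases h3 with ⟨h3, h4⟩ | ⟨h3, h4⟩
          · exact Or.inl ⟨(List.prefix_cons_inj false).2 h3, (List.prefix_cons_inj false).2 h4⟩
          · exact Or.inr ⟨(List.prefix_cons_inj false).2 h3, (List.prefix_cons_inj false).2 h4⟩

theorem lxTot (i j : I) (hij : i ≠ j) (p : Cond I) : ∃ q ≤ p, q ∈ lx i j ∨ q ∈ lx j i := by
  classical
  obtain ⟨u', v', s, h1, h2, h3⟩ := lxTot_aux (p.f i) (p.f j)
  let g : I → List Bool := fun k => if k = i then u' else if k = j then v' else p.f k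
  have hgi : g i = u' := by simp [g]
  have hgj : g j = v' := by simp [g, hij.symm]
  have hfin : {k | g k ≠ []}.Finite := by
    refine ((p.fin.union (Set.finite_singleton i)).union (Set.finite_singleton j)).subset ?_
    intro k hk
    by_cases hki : k = i
    · left; right; exact hki
    by_cases hkj : k = j
    · right; exact hkj
    left; left
    have : g k = p.f k := by simp [g, hki, hkj]
    have hk' : g k ≠ [] := hk
    rw [this] at hk'
    exact hk'
  refine ⟨⟨g, hfin⟩, ?_, ?_⟩
  · intro k
    show p.f k <+: g k
    by_cases hki : k = i
    · subst hki; rw [hgi]; exact h1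
    by_cases hkj : k = j
    · subst hkj; rw [hgj]; exact h2
    have : g k = p.f k := by simp [g, hki, hkj]
    rw [this]
  · rcases h3 with ⟨h3, h4⟩ | ⟨h3, h4⟩
    · left
      refine ⟨s, ?_, ?_⟩
      · show _ <+: g i
        rw [hgi]; exact h3
      · show _ <+: g j
        rw [hgj]; exact h4
    · right
      refine ⟨s, ?_, ?_⟩
      · show _ <+: g j
        rw [hgj]; exact h3
      · show _ <+: g i
        rw [hgi]; exact h4

end Pool.Agent.Helper330.SRC
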