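import Pool.Agent.Helper330.SRC.Defs

set_option autoImplicit false
set_option linter.all false

/-!
# Forcing strongly rigid chains

A sentence of the forcing language of a preordered set `P` of conditions is represented by the
set of the conditions which force it. Negation, conjunction and universal quantification are the
primitive connectives, with their usual forcing clauses; the other connectives are defined from
them classically. A name for a subset of a ground model set `X` is a map sending `x : X` to the
set of the conditions attached to `x`.
-/

namespace Pool.Agent.Helper330.SRC
open Set Cardinal



universe u v w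
variable {I : Type u}

theorem lxTrans (i j k : I) (p : Cond I) (h : p ∈ lx i j) (h' : p ∈ lx j k) : p ∈ lx i k := by
  obtain ⟨s, hs1, hs2⟩ := h
  obtain ⟨t, ht1, ht2⟩ := h'
  have hs : s <+: p.f j := (List.prefix_append s [true]).trans hs2
  have ht : t <+: p.f j := (List.prefix_append t [false]).trans ht1
  rcases lt_trichotomy s.length t.length with hl | hl | hl
  · have h1 : s ++ [true] <+: t := List.prefix_of_prefix_length_le hs2 ht (by simp; omega)
    refine ⟨s, hs1, ?_⟩
    exact h1.trans ((List.prefix_append t [true]).trans ht2)
  · exfalso
    have h1 : s ++ [true] <+: t ++ [false] :=
      List.prefix_of_prefix_length_le hs2 ht1 (by simp [hl])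
    have h2 : s ++ [true] = t ++ [false] := h1.eq_of_length (by simp [hl])
    have h3 := List.append_inj' h2 rfl
    simp at h3
  · have h1 : t ++ [false] <+: s := List.prefix_of_prefix_length_le ht1 hs (by simp; omega)
    refine ⟨t, ?_, ht2⟩
    exact h1.trans ((List.prefix_append s [false]).trans hs1)

end Pool.Agent.Helper330.SRC
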