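import Pool.Agent.Helper330.SRC.Defs
import Pool.Agent.Helper330.SRC.P_lxIrr
import Pool.Agent.Helper330.SRC.P_lxTrans
import Pool.Agent.Helper330.SRC.P_lxTot

set_option autoImplicit false
set_option linter.all false

/-!
# Forcing strongly rigid chains

A sentence of the forcing language of a preordered set `P` of conditions is represented by the
set of the conditions which force it. Negation, conjunction and universal quantification are the
primitive connectives, with their usual forcing clauses; the other connectives are defined from
them classically. A name for a subset of a ground model set `X` is a map sending `x : X` to the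
set of the conditions attached to `x`.
-/

namespace Pool.Agent.Helper330.SRC
open Set Cardinal



universe u v w
variable {I : Type u}

theorem chain {A : Type v} (e : A → I) (he : Function.Injective e) (p : Cond I) :
    p ∈ IsLinearOrder (fun x y => lx (e x) (e y)) := by
  refine ⟨?_, ?_, ?_⟩
  · intro x q hq hm
    exact lxIrr _ _ hm
  · intro x y z
    rw [mem_fimp]
    rintro q hq ⟨h1, h2⟩
    obtain ⟨r, hr, h3⟩ := meets_lx h1
    obtain ⟨r2, hr2, h4⟩ := meets_lx (down_meets _ _ h2 _ hr)
    exact ⟨r2, hr2.trans hr, meets_of_mem (lxTrans _ _ _ _ (down_lx _ _ _ h3 _ hr2) h4)⟩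
  · intro x y hxy
    rw [mem_for']
    intro q hq
    obtain ⟨r, hr, h⟩ := lxTot (e x) (e y) (fun h => hxy (he h)) q
    exact ⟨r, hr, h.imp meets_of_mem meets_of_mem⟩

end Pool.Agent.Helper330.SRC
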