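import Pool.Agent.Helper330.SRC.Defs
import Pool.Agent.Helper330.SRC.P_ccc
import Pool.Agent.Helper330.SRC.P_lxIrr
import Pool.Agent.Helper330.SRC.P_lxTot

set_option autoImplicit false
set_option linter.all false

/-!
# Forcing strongly rigid chains

A sentence of the forcing language of a preordered set `P` of conditions is represented by the
set of the conditions which force it. Negation, conjunction and universal quantification are the
primitive connectives, with their usual forcing clauses; the other connectives are defined from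
them classically. A name for a subset of a ground model set `X` is a map sending `x : X` to the
set of the conditions attached to `x`.
-/

namespace Pool.Agent.Helper330.SRC
open Set Cardinal



universe u v w
variable {I : Type u}

theorem fibers {A : Type v} (e : A → I) (he : Function.Injective e)
    (F : A → A → Set (Cond I)) (p : Cond I)
    (h : p ∈ IsPartIncreasing (fun x y => lx (e x) (e y)) F) (y : A) :
    {x | ∃ q ≤ p, q ∈ meets (F x y)}.Countable := by
  classical
  by_contra hE
  have hq : ∀ x : A, ∃ q : Cond I, (∃ q ≤ p, q ∈ meets (F x y)) → (q ≤ p ∧ q ∈ meets (F x y)) := by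
    intro x
    by_cases hx : ∃ q ≤ p, q ∈ meets (F x y)
    · obtain ⟨q, h1, h2⟩ := hx
      exact ⟨q, fun _ => ⟨h1, h2⟩⟩
    · exact ⟨p, fun h => absurd h hx⟩
  choose q hq using hq
  obtain ⟨x, hx, x', hx', hne, r, hr, hr'⟩ := ccc q _ hE
  have h1 := hq x hx
  have h2 := hq x' hx'
  have key : ∀ x x' : A, ∀ r : Cond I, r ≤ p → r ∈ meets (F x y) → r ∈ meets (F x' y) →
      r ∈ lx (e x) (e x') → False := by
    intro x x' r hrp hm hm' hl
    have h3 := mem_fimp.mp (h.2 x y x' y) r hrp ⟨⟨hm, hm'⟩, meets_of_mem hl⟩
    obtain ⟨s, _, hs⟩ := h3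
    exact lxIrr (e y) s hs
  have hm : r ∈ meets (F x y) := down_meets _ _ h1.2 _ hr
  have hm' : r ∈ meets (F x' y) := down_meets _ _ h2.2 _ hr'
  have hrp : r ≤ p := hr.trans h1.1
  obtain ⟨s, hs, hl | hl⟩ := lxTot (e x) (e x') (fun h => hne (he h)) r
  · exact key x x' s (hs.trans hrp) (down_meets _ _ hm _ hs) (down_meets _ _ hm' _ hs) hl
  · exact key x' x s (hs.trans hrp) (down_meets _ _ hm' _ hs) (down_meets _ _ hm _ hs) hl

end Pool.Agent.Helper330.SRC
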