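import Pool.Agent.Helper330.SRC.Defs

set_option autoImplicit false
set_option linter.all false

/-!
# Forcing strongly rigid chains

A sentence of the forcing language of a preordered set `P` of conditions is represented by the
set of the conditions which force it. Negation, conjunction and universal quantification are the
primitive connectives, with their usual forcing clauses; the other connectives are defined from
them classically. A name for a subset of a ground model set `X` is a map sending `x : X` to the
set of the conditions attached to `x`.
-/

namespace Pool.Agent.Helper330.SRC
open Set Cardinal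



universe u v w
variable {I : Type u}

theorem injThin {J : Type v} {B : Type w} (b : J → B) (E : Set J) (hE : ¬ E.Countable)
    (hb : ∀ y, {j ∈ E | b j = y}.Countable) :
    ∃ E' ⊆ E, ¬ E'.Countable ∧ ∀ i ∈ E', ∀ j ∈ E', b i = b j → i = j := by
  obtain ⟨E', hsub, hbij⟩ := Set.exists_subset_bijOn E b
  refine ⟨E', hsub, ?_, ?_⟩
  · intro hc
    apply hE
    have h1 : (b '' E).Countable := by
      rw [← hbij.image_eq]
      exact hc.image b
    have h2 : E = ⋃ y ∈ b '' E, {j ∈ E | b j = y} := by
      ext j
      constructor
      · intro hj
        exact Set.mem_biUnion (Set.mem_image_of_mem b hj) ⟨hj, rfl⟩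
      · intro hj
        obtain ⟨y, _, hy⟩ := Set.mem_iUnion₂.mp hj
        exact hy.1
    rw [h2]
    exact h1.biUnion (fun y _ => hb y)
  · intro i hi j hj hij
    exact hbij.injOn hi hj hij

end Pool.Agent.Helper330.SRC
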