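import Pool.Agent.Helper330.SRC.Defs
import Pool.Agent.Helper330.SRC.P_thin
import Pool.Agent.Helper330.SRC.P_amalg

set_option autoImplicit false
set_option linter.all false

/-!
# Forcing strongly rigid chains

A sentence of the forcing language of a preordered set `P` of conditions is represented by the
set of the conditions which force it. Negation, conjunction and universal quantification are the
primitive connectives, with their usual forcing clauses; the other connectives are defined from
them classically. A name for a subset of a ground model set `X` is a map sending `x : X` to the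
set of the conditions attached to `x`.
-/

namespace Pool.Agent.Helper330.SRC
open Set Cardinal



universe u v w
variable {I : Type u}

theorem key {J : Type v} (p : J → Cond I) (a b : J → I) (E : Set J) (hE : ¬ E.Countable)
    (ha : ∀ i ∈ E, ∀ j ∈ E, a i = a j → i = j) (hb : ∀ i ∈ E, ∀ j ∈ E, b i = b j → i = j)
    (hab : ∀ j ∈ E, a j ≠ b j) :
    ∃ i ∈ E, ∃ j ∈ E, i ≠ j ∧ ∃ r : Cond I, r ≤ p i ∧ r ≤ p j ∧
      r ∈ lx (a i) (a j) ∧ r ∈ lx (b j) (b i) := by
  classical
  obtain ⟨E', R, hE'E, hE'c, hT, hp, hc⟩ := thin p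
    (fun j => (p j).fin.toFinset ∪ {a j, b j})
    (by
      intro j i hi
      simp only [Finset.mem_union]
      left
      exact (Set.Finite.mem_toFinset _).2 hi)
    (fun j => ((p j).f (a j), (p j).f (b j))) E hE
  have h1 : {j | j ∈ E' ∧ a j ∈ R}.Finite := by
    refine Set.Finite.of_finite_image (f := a) (R.finite_toSet.subset ?_) ?_
    · rintro _ ⟨j, hj, rfl⟩
      exact hj.2
    · intro i hi j hj h
      exact ha i (hE'E hi.1) j (hE'E hj.1) h
  have h2 : {j | j ∈ E' ∧ b j ∈ R}.Finite := by
    refine Set.Finite.of_finite_image (f := b) (R.finite_toSet.subset ?_) ?_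
    · rintro _ ⟨j, hj, rfl⟩
      exact hj.2
    · intro i hi j hj h
      exact hb i (hE'E hi.1) j (hE'E hj.1) h
  have h3 : ¬ {j | j ∈ E' ∧ a j ∉ R ∧ b j ∉ R}.Subsingleton := by
    intro hs
    apply hE'c
    refine ((hs.countable.union h1.countable).union h2.countable).mono ?_
    intro j hj
    by_cases ha' : a j ∈ R
    · exact Or.inl (Or.inr ⟨hj, ha'⟩)
    · by_cases hb' : b j ∈ R
      · exact Or.inr ⟨hj, hb'⟩
      · exact Or.inl (Or.inl ⟨hj, ha', hb'⟩)
  rw [Set.not_subsingleton_iff] at h3
  obtain ⟨i, ⟨hi, hai, hbi⟩, j, ⟨hj, haj, hbj⟩, hij⟩ := h3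
  have memS : ∀ (l : J) (k : I), (p l).f k ≠ [] →
      k ∈ (p l).fin.toFinset ∪ ({a l, b l} : Finset I) := by
    intro l k hk
    exact Finset.mem_union_left _ ((Set.Finite.mem_toFinset _).2 hk)
  have memA : ∀ l : J, a l ∈ (p l).fin.toFinset ∪ ({a l, b l} : Finset I) := by
    intro l
    exact Finset.mem_union_right _ (by simp)
  have memB : ∀ l : J, b l ∈ (p l).fin.toFinset ∪ ({a l, b l} : Finset I) := by
    intro l
    exact Finset.mem_union_right _ (by simp)
  have nai : a i ∉ (p j).fin.toFinset ∪ ({a j, b j} : Finset I) :=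
    fun h => hai (hT i hi j hj hij _ (memA i) h)
  have nbi : b i ∉ (p j).fin.toFinset ∪ ({a j, b j} : Finset I) :=
    fun h => hbi (hT i hi j hj hij _ (memB i) h)
  have naj : a j ∉ (p i).fin.toFinset ∪ ({a i, b i} : Finset I) :=
    fun h => haj (hT j hj i hi (Ne.symm hij) _ (memA j) h)
  have nbj : b j ∉ (p i).fin.toFinset ∪ ({a i, b i} : Finset I) :=
    fun h => hbj (hT j hj i hi (Ne.symm hij) _ (memB j) h)
  have eai : (p j).f (a i) = [] := by
    by_contra h
    exact nai (memS j _ h)
  have ebi : (p j).f (b i) = [] := by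
    by_contra h
    exact nbi (memS j _ h)
  have eaj : (p i).f (a j) = [] := by
    by_contra h
    exact naj (memS i _ h)
  have ebj : (p i).f (b j) = [] := by
    by_contra h
    exact nbj (memS i _ h)
  have d1 : a i ≠ a j := fun h => nai (h ▸ memA j)
  have d2 : a i ≠ b j := fun h => nai (h ▸ memB j)
  have d3 : b i ≠ a j := fun h => nbi (h ▸ memA j)
  have d4 : b i ≠ b j := fun h => nbi (h ▸ memB j)
  have d5 : a i ≠ b i := hab i (hE'E hi)
  have d6 : a j ≠ b j := hab j (hE'E hj)
  have hcc := hc i hi j hj
  have hs : (p i).f (a i) = (p j).f (a j) := congrArg Prod.fst hcc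
  have ht : (p i).f (b i) = (p j).f (b j) := congrArg Prod.snd hcc
  obtain ⟨r0, hr0i, hr0j, -, hv1, hv2⟩ := amalg (p i) (p j) (by
    intro k hk1 hk2
    exact hp i hi j hj k (hT i hi j hj hij k (memS i k hk1) (memS j k hk2)))
  have v1 : r0.f (a i) = (p i).f (a i) := hv1 _ eai
  have v2 : r0.f (a j) = (p i).f (a i) := (hv2 _ eaj).trans hs.symm
  have v3 : r0.f (b i) = (p i).f (b i) := hv1 _ ebi
  have v4 : r0.f (b j) = (p i).f (b i) := (hv2 _ ebj).trans ht.symm
  set s := (p i).f (a i) with hsdef
  set t := (p i).f (b i) with htdef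
  let g : I → List Bool := fun k => if k = a i then s ++ [false] else
    if k = a j then s ++ [true] else if k = b j then t ++ [false] else
    if k = b i then t ++ [true] else r0.f k
  have hg : ∀ k, g k = if k = a i then s ++ [false] else
    if k = a j then s ++ [true] else if k = b j then t ++ [false] else
    if k = b i then t ++ [true] else r0.f k := fun k => rfl
  have gfin : {k | g k ≠ []}.Finite := by
    refine (r0.fin.union (Set.toFinite {a i, a j, b j, b i})).subset ?_
    intro k hk
    by_cases k1 : k = a i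
    · right; simp [k1]
    by_cases k2 : k = a j
    · right; simp [k2]
    by_cases k3 : k = b j
    · right; simp [k3]
    by_cases k4 : k = b i
    · right; simp [k4]
    left
    have : g k = r0.f k := by rw [hg, if_neg k1, if_neg k2, if_neg k3, if_neg k4]
    have hk' : g k ≠ [] := hk
    rw [this] at hk'
    exact hk'
  have gle : ∀ k, r0.f k <+: g k := by
    intro k
    rw [hg]
    split_ifs with k1 k2 k3 k4
    · rw [k1, v1]; exact List.prefix_append _ _
    · rw [k2, v2]; exact List.prefix_append _ _
    · rw [k3, v4]; exact List.prefix_append _ _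
    · rw [k4, v3]; exact List.prefix_append _ _
    · exact List.prefix_rfl
  have hr : (⟨g, gfin⟩ : Cond I) ≤ r0 := gle
  refine ⟨i, hE'E hi, j, hE'E hj, hij, ⟨g, gfin⟩, hr.trans hr0i, hr.trans hr0j, ?_, ?_⟩
  · refine ⟨s, ?_, ?_⟩
    · change s ++ [false] <+: g (a i)
      rw [hg, if_pos rfl]
    · change s ++ [true] <+: g (a j)
      rw [hg, if_neg (Ne.symm d1), if_pos rfl]
  · refine ⟨t, ?_, ?_⟩
    · change t ++ [false] <+: g (b j)
      rw [hg, if_neg (Ne.symm d2), if_neg (Ne.symm d6), if_pos rfl]
    · change t ++ [true] <+: g (b i)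
      rw [hg, if_neg (Ne.symm d5), if_neg d3, if_neg d4, if_pos rfl]

end Pool.Agent.Helper330.SRC
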