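import Pool.Agent.Helper330.SRC.Defs

set_option autoImplicit false
set_option linter.all false

/-!
# Forcing strongly rigid chains

A sentence of the forcing language of a preordered set `P` of conditions is represented by the
set of the conditions which force it. Negation, conjunction and universal quantification are the
primitive connectives, with their usual forcing clauses; the other connectives are defined from
them classically. A name for a subset of a ground model set `X` is a map sending `x : X` to the
set of the conditions attached to `x`.
-/

namespace Pool.Agent.Helper330.SRC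
open Set Cardinal



universe u v w
variable {I : Type u}

theorem lxAsymm_aux (s L : List Bool) (b : Bool) (h : s ++ [b] <+: L) :
    L[s.length]? = some b ∧ ∀ k < s.length, L[k]? = s[k]? := by
  obtain ⟨r, rfl⟩ := h
  constructor
  · simp
  · intro k hk
    rw [List.append_assoc, List.getElem?_append_left hk]

theorem lxAsymm (i j : I) (p : Cond I) (h : p ∈ lx i j) : p ∉ meets (lx j i) := by
  intro hm
  obtain ⟨q, hqp, t, ht1, ht2⟩ := meets_lx hm
  obtain ⟨s, hs1, hs2⟩ := down_lx i j p h q hqp
  obtain ⟨a1, a2⟩ := lxAsymm_aux _ _ _ ht1
  obtain ⟨b1, b2⟩ := lxAsymm_aux _ _ _ ht2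
  obtain ⟨c1, c2⟩ := lxAsymm_aux _ _ _ hs1
  obtain ⟨d1, d2⟩ := lxAsymm_aux _ _ _ hs2
  rcases lt_trichotomy s.length t.length with hlt | heq | hgt
  · have h1 := a2 _ hlt
    have h2 := b2 _ hlt
    rw [← h2, c1, d1] at h1
    simp at h1
  · rw [heq] at c1
    rw [b1] at c1
    simp at c1
  · have h1 := c2 _ hgt
    have h2 := d2 _ hgt
    rw [← h2, b1, a1] at h1
    simp at h1

end Pool.Agent.Helper330.SRC
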