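import Pool.Agent.Helper330.SRC.Defs
import Pool.Agent.Helper330.SRC.P_key
import Pool.Agent.Helper330.SRC.P_injThin
import Pool.Agent.Helper330.SRC.P_lxAsymm
import Pool.Agent.Helper330.SRC.P_fibers

set_option autoImplicit false
set_option linter.all false

/-!
# Forcing strongly rigid chains

A sentence of the forcing language of a preordered set `P` of conditions is represented by the
set of the conditions which force it. Negation, conjunction and universal quantification are the
primitive connectives, with their usual forcing clauses; the other connectives are defined from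
them classically. A name for a subset of a ground model set `X` is a map sending `x : X` to the
set of the conditions attached to `x`.
-/

namespace Pool.Agent.Helper330.SRC
open Set Cardinal



universe u v w
variable {I : Type u}

theorem moved {A : Type v} (e : A → I) (he : Function.Injective e)
    (F : A → A → Set (Cond I)) (p : Cond I)
    (h : p ∈ IsPartIncreasing (fun x y => lx (e x) (e y)) F) :
    {x | ∃ q ≤ p, ∃ y, y ≠ x ∧ q ∈ meets (F x y)}.Countable := by
  classical
  by_contra hE
  set E : Set A := {x | ∃ q ≤ p, ∃ y, y ≠ x ∧ q ∈ meets (F x y)} with hEdef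
  have hch : ∀ x : A, ∃ q : Cond I, ∃ y : A, x ∈ E → q ≤ p ∧ y ≠ x ∧ q ∈ meets (F x y) := by
    intro x
    by_cases hx : x ∈ E
    · obtain ⟨q, hq, y, hy, hm⟩ := hx
      exact ⟨q, y, fun _ => ⟨hq, hy, hm⟩⟩
    · exact ⟨p, x, fun h => absurd h hx⟩
  choose q y hqy using hch
  have hfib : ∀ z, {j ∈ E | y j = z}.Countable := by
    intro z
    refine (fibers e he F p h z).mono ?_
    rintro x ⟨hx, hxz⟩
    obtain ⟨h1, h2, h3⟩ := hqy x hx
    exact ⟨q x, h1, hxz ▸ h3⟩
  obtain ⟨E', hE'E, hE', hinj⟩ := injThin y E hE hfib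
  obtain ⟨i, hi, j, hj, hij, r, hri, hrj, hr1, hr2⟩ := key q e (fun x => e (y x)) E' hE'
    (fun i _ j _ hh => he hh) (fun i hi j hj hh => hinj i hi j hj (he hh))
    (fun j hj hh => (hqy j (hE'E hj)).2.1 (he hh).symm)
  obtain ⟨a1, a2, a3⟩ := hqy i (hE'E hi)
  obtain ⟨b1, b2, b3⟩ := hqy j (hE'E hj)
  have hk := h.2 i (y i) j (y j)
  rw [mem_fimp] at hk
  obtain ⟨r2, hr2r, hm⟩ := hk r (hri.trans a1)
    ⟨⟨down_meets _ _ a3 _ hri, down_meets _ _ b3 _ hrj⟩, meets_of_mem hr1⟩
  exact lxAsymm (e (y j)) (e (y i)) r2 (down_lx _ _ r hr2 r2 hr2r) hm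

end Pool.Agent.Helper330.SRC
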