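import Pool.Agent.Helper330.SRC.Defs
import Pool.Agent.Helper330.SRC.P_vals
import Pool.Agent.Helper330.SRC.P_moved

set_option autoImplicit false
set_option linter.all false

/-!
# Forcing strongly rigid chains

A sentence of the forcing language of a preordered set `P` of conditions is represented by the
set of the conditions which force it. Negation, conjunction and universal quantification are the
primitive connectives, with their usual forcing clauses; the other connectives are defined from
them classically. A name for a subset of a ground model set `X` is a map sending `x : X` to the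
set of the conditions attached to `x`.
-/

namespace Pool.Agent.Helper330.SRC
open Set Cardinal



universe u v w
variable {I : Type u}

theorem few {A : Type v} (e : A → I) (he : Function.Injective e) (hA : ℵ₀ < #A)
    (F : A → A → Set (Cond I)) (p : Cond I)
    (h : p ∈ IsPartIncreasing (fun x y => lx (e x) (e y)) F) : p ∈ MovesFew F := by
  intro q hq hfex
  obtain ⟨r, hr, R, hR1, hR2, hR3⟩ := mem_fex.1 hfex q (le_refl q)
  have hM := moved e he F p h
  have hcov : (Set.univ : Set A) ⊆ ⋃ x ∈ {x | ∃ q ≤ p, ∃ y, y ≠ x ∧ q ∈ meets (F x y)},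
      {y | ∃ q ≤ r, q ∈ meets (R x y)} := by
    intro y _
    obtain ⟨r1, hr1, x, hx⟩ := mem_fex.1 (hR3 y) r (le_refl r)
    obtain ⟨r2, hr2, hr2'⟩ := mem_fimp.1 (hR1 x y) r1 hr1 hx
    obtain ⟨r3, hr3, z, hz1, hz2⟩ := mem_fex.1 hr2' r2 (le_refl r2)
    rw [Set.mem_iUnion₂]
    refine ⟨x, ?_, r1, hr1, hx⟩
    exact ⟨r3, hr3.trans (hr2.trans (hr1.trans (hr.trans hq))), z, hz1, hz2⟩
  have hc : (Set.univ : Set A).Countable :=
    (hM.biUnion fun x _ => vals R r hR2 x).mono hcov
  have hcA : Countable A := Set.countable_univ_iff.1 hc
  exact absurd (Cardinal.mk_le_aleph0_iff.2 hcA) (not_le.2 hA)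

end Pool.Agent.Helper330.SRC
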