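import Pool.Agent.Helper330.SRC.Defs
import Pool.Agent.Helper330.SRC.P_chain
import Pool.Agent.Helper330.SRC.P_few

set_option autoImplicit false
set_option linter.all false

/-!
# Forcing strongly rigid chains

A sentence of the forcing language of a preordered set `P` of conditions is represented by the
set of the conditions which force it. Negation, conjunction and universal quantification are the
primitive connectives, with their usual forcing clauses; the other connectives are defined from
them classically. A name for a subset of a ground model set `X` is a map sending `x : X` to the
set of the conditions attached to `x`.
-/

namespace Pool.Agent.Helper330.SRC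
open Set Cardinal



universe u v w
variable {I : Type u}

theorem rigid {A : Type v} (e : A → I) (he : Function.Injective e) (hA : ℵ₀ < #A)
    (p : Cond I) : p ∈ HasRigidChain (Cond I) A := by
  unfold HasRigidChain
  rw [mem_fex]
  intro q _
  refine ⟨q, le_refl q, fun x y => lx (e x) (e y), chain e he q, ?_⟩
  intro F
  rw [mem_fimp]
  intro r _ hr
  exact ⟨r, le_refl r, few e he hA F r hr⟩

end Pool.Agent.Helper330.SRC
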